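import Pool.Agent.H393.EV.Grp

/-! The group has exactly `120` elements.  (helper393) -/

set_option autoImplicit false

namespace Pool.Agent.H393.EV

open Pool.Agent.H571R3 Pool.Agent.R282.EV Pool.Agent.H684.EV

theorem x3_mem : Inv (J (a3, (b3, 1))) := by rw [J3]; exact KK_sym g3 (Or.inl rfl)

theorem x5_mem : Inv (J (a5, (b5, 1))) := by rw [J5]; exact KK_sym g5 (Or.inr (Or.inl rfl))

theorem xs_mem : Inv (J (1, (1, Equiv.swap 0 1))) := by
  rw [Jsw]; exact KK_sym gsw (Or.inr (Or.inr rfl))

theorem sg_a3 : Equiv.Perm.sign a3 = 1 := by decide +kernel

theorem sg_a5 : Equiv.Perm.sign a5 = 1 := by decide +kernel

/-- An element of order three. -/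
def x3 : GG := ⟨⟨_, x3_mem⟩, sg_a3⟩

/-- An element of order five. -/
def x5 : GG := ⟨⟨_, x5_mem⟩, sg_a5⟩

/-- The exchange of the suspension points. -/
def xs : GG := ⟨⟨_, xs_mem⟩, by
  show Equiv.Perm.sign (1 : Equiv.Perm (Fin 5)) = 1
  exact map_one _⟩

/-- Words in two even permutations. -/
def ev5 : List Bool → Equiv.Perm (Fin 5)
  | [] => 1
  | true :: l => a5 * ev5 l
  | false :: l => a3 * ev5 l

/-- The same words in the group. -/
def evG : List Bool → GG
  | [] => 1
  | true :: l => x5 * evG l
  | false :: l => x3 * evG l

theorem evG_fst (l : List Bool) : (evG l).1.1.1 = ev5 l := by
  induction l with
  | nil => rfl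
  | cons b l ih =>
    cases b
    · show a3 * (evG l).1.1.1 = a3 * ev5 l
      rw [ih]
    · show a5 * (evG l).1.1.1 = a5 * ev5 l
      rw [ih]

theorem evG_snd (l : List Bool) : (evG l).1.1.2.2 = 1 := by
  induction l with
  | nil => rfl
  | cons b l ih =>
    cases b
    · show 1 * (evG l).1.1.2.2 = 1
      rw [ih, one_mul]
    · show 1 * (evG l).1.1.2.2 = 1
      rw [ih, one_mul]

/-- Sixty words. -/
def words : List (List Bool) :=
  [[], [true], [false], [true, true], [false, true], [true, false], [false, false],
   [true, true, true], [false, true, true], [true, false, true], [false, false, true],
   [true, true, false], [false, true, false], [true, false, false], [true, true, true, true],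
   [false, true, true, true], [true, false, true, true], [false, false, true, true],
   [true, true, false, true], [false, true, false, true], [true, false, false, true],
   [true, true, true, false], [true, false, true, false], [false, false, true, false],
   [true, true, false, false], [false, true, false, false], [false, true, true, true, true],
   [true, false, true, true, true], [false, true, false, true, true],
   [true, false, false, true, true], [true, true, true, false, true],
   [true, false, true, false, true], [false, false, true, false, true],
   [true, true, false, false, true], [false, true, false, false, true],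
   [true, true, true, true, false], [false, true, true, true, false],
   [false, true, false, true, false], [true, false, true, false, false],
   [false, false, true, false, false], [true, false, true, true, true, true],
   [false, true, false, true, true, true], [true, false, true, false, true, true],
   [false, false, true, false, true, true], [false, true, false, false, true, true],
   [true, true, true, true, false, true], [false, true, true, true, false, true],
   [true, false, true, false, false, true], [true, false, true, true, true, false],
   [false, false, true, false, true, false], [false, true, false, true, false, false],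
   [false, true, false, true, true, true, true], [true, false, true, false, true, true, true],
   [false, false, true, false, true, true, true], [true, false, true, false, false, true, true],
   [false, true, false, true, false, false, true], [false, true, false, true, true, true, false],
   [true, false, true, false, true, true, true, true],
   [false, false, true, false, true, true, true, true],
   [false, true, false, true, false, false, true, true]]

/-- The values of a permutation. -/
def code (σ : Equiv.Perm (Fin 5)) : List ℕ := [(σ 0).val, (σ 1).val, (σ 2).val, (σ 3).val, (σ 4).val]

theorem words_len : words.length = 60 := by decide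

theorem codes_nodup : (words.map fun l => code (ev5 l)).Nodup := by decide +kernel

theorem card_ge : 120 ≤ Nat.card GG := by
  let f : Fin 60 × Bool → GG := fun p =>
    evG (words.get (Fin.cast words_len.symm p.1)) * (if p.2 = true then xs else 1)
  have hf : Function.Injective f := by
    rintro ⟨i, b⟩ ⟨i', b'⟩ h
    have h1 : ∀ (l : List Bool) (b : Bool), (evG l * (if b = true then xs else 1)).1.1.1 = ev5 l := by
      intro l b
      cases b
      · simp only [Bool.false_eq_true, if_false, mul_one]; exact evG_fst l
      · show (evG l).1.1.1 * 1 = ev5 l
        rw [mul_one, evG_fst]
    have h2 : ∀ (l : List Bool) (b : Bool), (evG l * (if b = true then xs else 1)).1.1.2.2 =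
        if b = true then Equiv.swap 0 1 else 1 := by
      intro l b
      cases b
      · simp only [Bool.false_eq_true, if_false, mul_one]; exact evG_snd l
      · show (evG l).1.1.2.2 * Equiv.swap 0 1 = Equiv.swap 0 1
        rw [evG_snd, one_mul]
    have h3 := congrArg (fun g : GG => g.1.1.1) h
    have h4 := congrArg (fun g : GG => g.1.1.2.2) h
    simp only [f] at h3 h4
    rw [h1, h1] at h3
    rw [h2, h2] at h4
    have hb : b = b' := by
      have hne : (Equiv.swap 0 1 : Equiv.Perm (Fin 2)) ≠ 1 := by decide
      cases b <;> cases b'
      · rfl
      · simp only [Bool.false_eq_true, if_false, if_true] at h4; exact absurd h4.symm hne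
      · simp only [Bool.false_eq_true, if_false, if_true] at h4; exact absurd h4 hne
      · rfl
    have hi : i = i' := by
      have h5 := List.nodup_iff_injective_get.1 codes_nodup
      have hl : (words.map fun l => code (ev5 l)).length = 60 := by rw [List.length_map, words_len]
      have h6 : (words.map fun l => code (ev5 l)).get (Fin.cast hl.symm i) =
          (words.map fun l => code (ev5 l)).get (Fin.cast hl.symm i') := by
        simp only [List.get_eq_getElem, List.getElem_map, Fin.val_cast]
        exact congrArg code h3
      have h7 := h5 h6
      exact Fin.cast_injective _ h7
    rw [hi, hb]
  have h := Nat.card_le_card_of_injective f hf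
  rw [Nat.card_prod, Nat.card_fin, Nat.card_eq_fintype_card, Fintype.card_bool] at h
  exact h

theorem card_eq : Nat.card GG = 120 := le_antisymm card_GG card_ge

end Pool.Agent.H393.EV
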