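import Pool.Agent.H393.EV.Cert

/-! The orbit of a nonevasive complex.  (helper393) -/

set_option autoImplicit false

namespace Pool.Agent.H393.EV

open Pool.Agent.H571R3

section

variable {V G : Type} [Group G] (a : G →* Equiv.Perm V) (ψ : ℕ → V) (M : List ℕ)

theorem inv_app (g : G) (v : V) : a g⁻¹ (a g v) = v := by
  rw [← Equiv.Perm.mul_apply, ← map_mul, inv_mul_cancel, map_one]
  rfl

theorem app_inv (g : G) (v : V) : a g (a g⁻¹ v) = v := by
  rw [← Equiv.Perm.mul_apply, ← map_mul, mul_inv_cancel, map_one]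
  rfl

/-- The faces of the orbit of the complex with facets `M` in the chart `ψ`. -/
def Sorb (A : Set V) : Prop := ∃ g : G, ∃ m ∈ M, ∀ v ∈ A, ∃ i, m.testBit i = true ∧ v = a g (ψ i)

/-- `g` moves every facet into a facet. -/
def Good (g : G) : Prop := ∀ m ∈ M, ∃ m' ∈ M, ∀ i, m.testBit i = true →
  ∃ i', m'.testBit i' = true ∧ a g (ψ i) = ψ i'

theorem sorb_down (A B : Set V) (h : A ⊆ B) (hB : Sorb a ψ M B) : Sorb a ψ M A := by
  obtain ⟨g, m, hm, h2⟩ := hB
  exact ⟨g, m, hm, fun v hv => h2 v (h hv)⟩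

theorem sorb_empty (h : M ≠ []) : Sorb a ψ M ∅ := by
  obtain ⟨m, hm⟩ := List.exists_mem_of_ne_nil M h
  exact ⟨1, m, hm, fun v hv => absurd hv (Set.notMem_empty v)⟩

theorem sorb_smul (g : G) (A : Set V) : Sorb a ψ M (a g '' A) ↔ Sorb a ψ M A := by
  constructor
  · rintro ⟨h, m, hm, h2⟩
    refine ⟨g⁻¹ * h, m, hm, fun v hv => ?_⟩
    obtain ⟨i, hi, he⟩ := h2 (a g v) ⟨v, hv, rfl⟩
    refine ⟨i, hi, ?_⟩
    rw [map_mul, Equiv.Perm.mul_apply, ← he, inv_app]
  · rintro ⟨h, m, hm, h2⟩
    refine ⟨g * h, m, hm, ?_⟩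
    rintro _ ⟨v, hv, rfl⟩
    obtain ⟨i, hi, he⟩ := h2 v hv
    refine ⟨i, hi, ?_⟩
    rw [map_mul, Equiv.Perm.mul_apply, ← he]

/-- The vertices of the chart. -/
abbrev Ch (n : ℕ) : Set V := {v | ∃ i < n, ψ i = v}

variable [Finite V] (n : ℕ) (lev : V → ℕ)

theorem orbit_win2 (e : ℕ) (hlev : ∀ g v, lev (a g v) = lev v)
    (hM : ∀ m ∈ M, ∀ i, m.testBit i = true → i < n)
    (hinj : ∀ i j, i < n → j < n → ψ i = ψ j → i = j)
    (hle : ∀ v, lev v ≤ e)
    (hbase : ∀ v, lev v = 0 → v ∈ Ch ψ n)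
    (hK : ∀ g : G, ∀ m ∈ M, ∃ m' ∈ M, ∀ i, m.testBit i = true → lev (ψ i) = 0 →
      ∃ i', m'.testBit i' = true ∧ a g (ψ i) = ψ i')
    (hH : ∀ (g : G) (i i' : ℕ), i < n → i' < n → lev (ψ i) ≠ 0 → a g (ψ i) = ψ i' →
      ∀ m ∈ M, m.testBit i = true → ∃ m' ∈ M, ∀ l, m.testBit l = true → lev (ψ l) ≤ lev (ψ i) →
      ∃ l', m'.testBit l' = true ∧ a g (ψ l) = ψ l')
    (hone : ∀ m ∈ M, ∀ i i', m.testBit i = true → m.testBit i' = true →
      lev (ψ i) = lev (ψ i') → lev (ψ i) ≠ 0 → i = i')
    (u : ℕ → ℕ) (R : ℕ → ℕ) (tB : ℕ → Tr) (tF : Tr)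
    (hu : ∀ j, 1 ≤ j → j ≤ e → u j < n ∧ lev (ψ (u j)) = j ∧
      ∀ v, lev v = j → ∃ g : G, a g (ψ (u j)) = v)
    (hR : ∀ j, 1 ≤ j → j ≤ e → ∀ i, (R j).testBit i = true ↔ i < n ∧ lev (ψ i) < j)
    (hB : ∀ j, 1 ≤ j → j ≤ e → check (tB j) (M.filter fun m => m.testBit (u j)) (R j) = true)
    (hF : check tF M (2 ^ n - 1) = true) : Win (Sorb a ψ M) ∅ ∅ := by
  -- the final stage
  have hfin : Win (Sorb a ψ M) ∅ {v | v ∉ Ch ψ n} := by
    refine check_sound _ ψ tF M (2 ^ n - 1) hF ?_ _ _ ?_ ⟨fun _ => True, fun X _ hXN => ?_⟩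
    · intro i j hi hj h
      rw [Nat.testBit_two_pow_sub_one, decide_eq_true_eq] at hi hj
      exact hinj i j hi hj h
    · intro i hi
      rw [Nat.testBit_two_pow_sub_one, decide_eq_true_eq] at hi
      exact ⟨Set.notMem_empty _, fun h => h ⟨i, hi, rfl⟩⟩
    · have hX : ∀ x ∈ X, x ∈ Ch ψ n := by
        intro x hx
        by_contra h
        exact Set.disjoint_left.1 hXN hx h
      rw [true_and]
      constructor
      · rintro ⟨g, m, hm, h⟩
        by_cases hl : ∃ x ∈ X, lev x ≠ 0
        · -- an element of maximal level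
          obtain ⟨x, hx, hmax⟩ : ∃ x ∈ X, ∀ y ∈ X, lev y ≤ lev x := by
            obtain ⟨x1, hx1, -⟩ := hl
            obtain ⟨x, hx, h2⟩ := Set.exists_max_image X lev (Set.toFinite X) ⟨x1, hx1⟩
            exact ⟨x, hx, h2⟩
          have hlx : lev x ≠ 0 := by
            obtain ⟨x1, hx1, h1⟩ := hl
            have := hmax x1 hx1
            omega
          obtain ⟨i0, hi0, hxe⟩ := h x hx
          have hl0 : lev (ψ i0) = lev x := by rw [hxe, hlev]
          obtain ⟨i1, hi1, hxc⟩ := hX x hx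
          obtain ⟨m', hm', h'⟩ := hH g i0 i1 (hM m hm i0 hi0) hi1 (by omega)
            (hxe.symm.trans hxc.symm) m hm hi0
          refine ⟨m', hm', fun i hi hiX => ?_⟩
          rw [Nat.testBit_two_pow_sub_one, decide_eq_true_eq] at hi
          obtain ⟨i2, hi2, hie⟩ := h _ hiX
          have hl2 : lev (ψ i2) ≤ lev (ψ i0) := by
            have h3 := hmax _ hiX
            rw [hie, hlev] at h3
            omega
          obtain ⟨i3, hi3, hie3⟩ := h' i2 hi2 hl2
          rw [hinj i i3 hi (hM m' hm' i3 hi3) (hie.trans hie3)]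
          exact hi3
        · push Not at hl
          obtain ⟨m', hm', h'⟩ := hK g m hm
          refine ⟨m', hm', fun i hi hiX => ?_⟩
          rw [Nat.testBit_two_pow_sub_one, decide_eq_true_eq] at hi
          obtain ⟨i2, hi2, hie⟩ := h _ hiX
          have hl2 : lev (ψ i2) = 0 := by
            have := hl _ hiX
            rwa [hie, hlev] at this
          obtain ⟨i3, hi3, hie3⟩ := h' i2 hi2 hl2
          rw [hinj i i3 hi (hM m' hm' i3 hi3) (hie.trans hie3)]
          exact hi3
      · rintro ⟨m, hm, h⟩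
        refine ⟨1, m, hm, fun v hv => ?_⟩
        obtain ⟨i, hi, rfl⟩ := hX v hv
        refine ⟨i, h i ?_ hv, ?_⟩
        · rw [Nat.testBit_two_pow_sub_one, decide_eq_true_eq]; exact hi
        · rw [map_one]; rfl
  -- the search stages
  have main : ∀ d : ℕ, ∀ j : ℕ, j + d = e → Win (Sorb a ψ M) ∅ {v | d < e + 1 ∧ j < lev v ∧ v ∉ Ch ψ n} →
      Win (Sorb a ψ M) ∅ ∅ := by
    intro d
    induction d with
    | zero =>
      intro j hj h
      have hset : {v : V | 0 < e + 1 ∧ j < lev v ∧ v ∉ Ch ψ n} = ∅ := by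
        ext v
        have := hle v
        constructor
        · rintro ⟨-, h1, -⟩
          omega
        · intro h; exact absurd h (Set.notMem_empty v)
      rwa [hset] at h
    | succ d ih =>
      intro j hj h
      refine ih (j + 1) (by omega) ?_
      have hj1 : 1 ≤ j + 1 := by omega
      have hje : j + 1 ≤ e := by omega
      obtain ⟨hun, hul, hut⟩ := hu (j + 1) hj1 hje
      refine win_search (Sorb a ψ M) {v | lev v = j + 1 ∧ v ∉ Ch ψ n} ∅ _ _ rfl ?_ ?_
      · intro w hwA _ hwN N' hN1 hN2 hwN'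
        obtain ⟨hwl, hwC⟩ := hwA
        obtain ⟨g, hg⟩ := hut w hwl
        have hRj := hR (j + 1) hj1 hje
        refine check_sound _ (fun i => a g (ψ i)) (tB (j + 1)) _ (R (j + 1)) (hB (j + 1) hj1 hje)
          ?_ _ _ ?_ ⟨fun Y => Y ⊆ {w}, fun X hTX hXN => ?_⟩
        · intro i i' hi hi' h
          exact hinj i i' ((hRj i).1 hi).1 ((hRj i').1 hi').1 ((a g).injective h)
        · intro i hi
          obtain ⟨hin, hil⟩ := (hRj i).1 hi
          have hl : lev (a g (ψ i)) < j + 1 := by rw [hlev]; exact hil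
          constructor
          · rintro (h | h)
            · rw [h, hwl] at hl
              exact absurd hl (lt_irrefl _)
            · exact h
          · intro h
            rcases hN2 h with h | h
            · have := h.2.1
              omega
            · have := h.1.1
              omega
        · have hwX : w ∈ X := hTX (Or.inl rfl)
          constructor
          · rintro ⟨g', m, hm, h⟩
            obtain ⟨i0, hi0, hwe⟩ := h w hwX
            have hl0 : lev (ψ i0) = j + 1 := by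
              rw [hwe, hlev] at hwl
              exact hwl
            -- the elements of `X` have level at most `j + 1`
            have hXl : ∀ x ∈ X, lev x ≤ j + 1 := by
              intro x hx
              by_contra hlt
              have hxC : x ∈ Ch ψ n := by
                by_contra hxC
                exact Set.disjoint_left.1 hXN hx (hN1 ⟨by omega, by omega, hxC⟩)
              obtain ⟨i1, hi1, hxe⟩ := h x hx
              obtain ⟨i2, hi2, hxc⟩ := hxC
              have hl1 : lev (ψ i1) = lev x := by rw [hxe, hlev]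
              obtain ⟨m2, hm2, h2⟩ := hH g' i1 i2 (hM m hm i1 hi1) hi2 (by omega)
                (hxe.symm.trans hxc.symm) m hm hi1
              obtain ⟨i3, hi3, h3⟩ := h2 i0 hi0 (by omega)
              exact hwC ⟨i3, hM m2 hm2 i3 hi3, by rw [← h3, ← hwe]⟩
            obtain ⟨m', hm', h'⟩ := hH (g⁻¹ * g') i0 (u (j + 1)) (hM m hm i0 hi0) hun (by omega)
              (by rw [map_mul, Equiv.Perm.mul_apply, ← hwe, ← hg, inv_app]) m hm hi0
            have key : ∀ x ∈ X, ∃ i, m'.testBit i = true ∧ i < n ∧ x = a g (ψ i) := by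
              intro x hx
              obtain ⟨i, hi, hxe⟩ := h x hx
              have hli : lev (ψ i) = lev x := by rw [hxe, hlev]
              have := hXl x hx
              obtain ⟨i', hi', he'⟩ := h' i hi (by omega)
              refine ⟨i', hi', hM m' hm' i' hi', ?_⟩
              rw [← he', map_mul, Equiv.Perm.mul_apply, app_inv]
              exact hxe
            have hum : m'.testBit (u (j + 1)) = true := by
              obtain ⟨i, hi, hn, hxe⟩ := key w hwX
              have : ψ (u (j + 1)) = ψ i := (a g).injective (hg.trans hxe)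
              rw [hinj _ _ hun hn this]
              exact hi
            refine ⟨?_, m', List.mem_filter.2 ⟨hm', hum⟩, ?_⟩
            · rintro x ⟨hx, hxI⟩
              obtain ⟨i, hi, hn, hxe⟩ := key x hx
              by_cases hil : lev (ψ i) < j + 1
              · exact absurd ⟨i, (hRj i).2 ⟨hn, hil⟩, hxe.symm⟩ hxI
              · by_cases hil2 : lev (ψ i) = j + 1
                · have hiu : i = u (j + 1) :=
                    hone m' hm' i (u (j + 1)) hi hum (by rw [hil2, hul]) (by omega)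
                  show x = w
                  rw [hxe, hiu, hg]
                · exfalso
                  have h3 := hXl x hx
                  rw [hxe, hlev] at h3
                  omega
            · intro i hi hiX
              obtain ⟨i2, hi2, hn2, hxe⟩ := key _ hiX
              have : i = i2 := hinj _ _ ((hRj i).1 hi).1 hn2 ((a g).injective hxe)
              rw [this]
              exact hi2
          · rintro ⟨hP, m, hm, h⟩
            obtain ⟨hm1, hm2⟩ := List.mem_filter.1 hm
            refine ⟨g, m, hm1, fun x hx => ?_⟩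
            by_cases hxI : x ∈ Im (fun i => a g (ψ i)) (R (j + 1))
            · obtain ⟨i, hi, rfl⟩ := hxI
              exact ⟨i, h i hi hx, rfl⟩
            · have : x = w := hP ⟨hx, hxI⟩
              rw [this]
              exact ⟨u (j + 1), hm2, hg.symm⟩
      · have hset : {v : V | d < e + 1 ∧ j + 1 < lev v ∧ v ∉ Ch ψ n} ∪
            ({v | lev v = j + 1 ∧ v ∉ Ch ψ n} \ ∅) =
            {v | d + 1 < e + 1 ∧ j < lev v ∧ v ∉ Ch ψ n} := by
          ext v
          constructor
          · rintro (⟨h1, h2, h3⟩ | ⟨⟨h1, h2⟩, -⟩)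
            · exact ⟨by omega, by omega, h3⟩
            · exact ⟨by omega, by omega, h2⟩
          · rintro ⟨h1, h2, h3⟩
            by_cases h4 : lev v = j + 1
            · exact Or.inr ⟨⟨h4, h3⟩, fun h => h⟩
            · exact Or.inl ⟨by omega, by omega, h3⟩
        rw [hset]
        exact h
  refine main e 0 (by omega) ?_
  have hset : {v : V | e < e + 1 ∧ 0 < lev v ∧ v ∉ Ch ψ n} = {v | v ∉ Ch ψ n} := by
    ext v
    constructor
    · rintro ⟨-, -, h⟩; exact h
    · intro h
      refine ⟨by omega, ?_, h⟩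
      by_contra h0
      exact h (hbase v (by omega))
  rw [hset]
  exact hfin

theorem orbit_win (e : ℕ) (hlev : ∀ g v, lev (a g v) = lev v)
    (hM : ∀ m ∈ M, ∀ i, m.testBit i = true → i < n)
    (hinj : ∀ i j, i < n → j < n → ψ i = ψ j → i = j)
    (hle : ∀ v, lev v ≤ e)
    (hbase : ∀ v, lev v = 0 → v ∈ Ch ψ n)
    (hK : ∀ g : G, ∀ m ∈ M, ∃ m' ∈ M, ∀ i, m.testBit i = true → lev (ψ i) = 0 →
      ∃ i', m'.testBit i' = true ∧ a g (ψ i) = ψ i')
    (hH : ∀ (g : G) (i : ℕ), i < n → lev (ψ i) ≠ 0 → a g (ψ i) ∈ Ch ψ n → Good a ψ M g)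
    (hone : ∀ m ∈ M, ∀ i i', m.testBit i = true → m.testBit i' = true →
      lev (ψ i) = lev (ψ i') → lev (ψ i) ≠ 0 → i = i')
    (u : ℕ → ℕ) (R : ℕ → ℕ) (tB : ℕ → Tr) (tF : Tr)
    (hu : ∀ j, 1 ≤ j → j ≤ e → u j < n ∧ lev (ψ (u j)) = j ∧
      ∀ v, lev v = j → ∃ g : G, a g (ψ (u j)) = v)
    (hR : ∀ j, 1 ≤ j → j ≤ e → ∀ i, (R j).testBit i = true ↔ i < n ∧ lev (ψ i) < j)
    (hB : ∀ j, 1 ≤ j → j ≤ e → check (tB j) (M.filter fun m => m.testBit (u j)) (R j) = true)
    (hF : check tF M (2 ^ n - 1) = true) : Win (Sorb a ψ M) ∅ ∅ := by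
  refine orbit_win2 a ψ M n lev e hlev hM hinj hle hbase hK ?_ hone u R tB tF hu hR hB hF
  intro g i i' hi hi' hl he m hm him
  obtain ⟨m', hm', h⟩ := hH g i hi hl ⟨i', hi', he.symm⟩ m hm
  exact ⟨m', hm', fun l hl _ => h l hl⟩

end

end Pool.Agent.H393.EV
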