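import Pool.Agent.H393.EV.Tab
import Pool.Agent.H393.EV.Orbit
import Pool.Agent.H393.EV.Card

/-! Assembly.  (helper393) -/

set_option autoImplicit false

namespace Pool.Agent.H393.EV

open Pool.Agent.H571R3 Pool.Agent.R282.EV Pool.Agent.H684.EV

/-- The involution. -/
noncomputable def tt : GG := exists_t.choose

theorem tt_act : act tt = gt' := exists_t.choose_spec.1

theorem tt_mul : tt * tt = 1 := exists_t.choose_spec.2.1

theorem tt_ne : tt ≠ 1 := exists_t.choose_spec.2.2

/-- The stabilisers of the new vertices. -/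
noncomputable def St (j : Fin 3) : Subgroup GG := if stb j = true then Subgroup.zpowers tt else ⊥

theorem mem_zp (g : GG) (hg : g ∈ Subgroup.zpowers tt) : g = 1 ∨ g = tt := by
  obtain ⟨k, hk⟩ := hg
  have hk' : tt ^ k = g := hk
  have h2 : tt ^ (2 : ℤ) = 1 := by
    rw [zpow_two]
    exact tt_mul
  rcases Int.even_or_odd' k with ⟨c, rfl | rfl⟩
  · left
    rw [← hk', zpow_mul, h2, one_zpow]
  · right
    rw [← hk', zpow_add, zpow_mul, h2, one_zpow, one_mul, zpow_one]

theorem St_le (j : Fin 3) : St j ≤ Subgroup.zpowers tt := by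
  unfold St
  split_ifs
  · exact le_refl _
  · exact bot_le

theorem St_true (j : Fin 3) (h : stb j = true) : tt ∈ St j := by
  unfold St
  rw [if_pos h]
  exact Subgroup.mem_zpowers tt

theorem St_false (j : Fin 3) (h : ¬ stb j = true) (g : GG) (hg : g ∈ St j) : g = 1 := by
  unfold St at hg
  rw [if_neg h] at hg
  exact Subgroup.mem_bot.1 hg

/-- The vertices. -/
abbrev VV : Type := Fin 13 ⊕ (Σ j : Fin 3, GG ⧸ St j)

/-- The action. -/
noncomputable def aV : GG →* Equiv.Perm VV := MonoidHom.mk'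
  (fun g => Equiv.sumCongr (act g) (Equiv.sigmaCongrRight fun _ => MulAction.toPerm g)) (by
    intro g h
    apply Equiv.ext
    rintro (x | ⟨j, x⟩)
    · show (Sum.inl (act (g * h) x) : VV) = Sum.inl (act g (act h x))
      rw [map_mul]
      rfl
    · show (Sum.inr ⟨j, (g * h) • x⟩ : VV) = Sum.inr ⟨j, g • h • x⟩
      rw [mul_smul])

theorem aV_inl (g : GG) (x : Fin 13) : aV g (Sum.inl x) = Sum.inl (act g x) := rfl

theorem aV_inr (g : GG) (j : Fin 3) (x : GG ⧸ St j) :
    aV g (Sum.inr ⟨j, x⟩) = Sum.inr ⟨j, g • x⟩ := rfl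

theorem aV_mk (g : GG) (j : Fin 3) (h : GG) :
    aV g (Sum.inr ⟨j, (h : GG ⧸ St j)⟩) = Sum.inr ⟨j, ((g * h : GG) : GG ⧸ St j)⟩ := rfl

/-- The translation of a new vertex of the chart. -/
noncomputable def hh (i : ℕ) : GG := if hb i = true then tt else 1

theorem hh_mem (i : ℕ) : hh i ∈ Subgroup.zpowers tt := by
  unfold hh
  split_ifs
  · exact Subgroup.mem_zpowers tt
  · exact one_mem _

/-- The chart. -/
noncomputable def psi (i : ℕ) : VV :=
  if h : i < 13 then Sum.inl ⟨i, h⟩ else Sum.inr ⟨jf i, (hh i : GG ⧸ St (jf i))⟩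

theorem psi_lt (i : ℕ) (h : i < 13) : psi i = Sum.inl ⟨i, h⟩ := dif_pos h

theorem psi_ge (i : ℕ) (h : ¬ i < 13) : psi i = Sum.inr ⟨jf i, (hh i : GG ⧸ St (jf i))⟩ :=
  dif_neg h

/-- The levels. -/
def lev : VV → ℕ := Sum.elim (fun _ => 0) (fun x => x.1.val + 1)

theorem lev_lt (i : ℕ) (h : i < 13) : lev (psi i) = 0 := by rw [psi_lt i h]; rfl

theorem lev_ge (i : ℕ) (h : ¬ i < 13) : lev (psi i) = (jf i).val + 1 := by rw [psi_ge i h]; rfl

theorem sig_inj {j j' : Fin 3} {h h' : GG}
    (H : (Sum.inr ⟨j, (h : GG ⧸ St j)⟩ : VV) = Sum.inr ⟨j', (h' : GG ⧸ St j')⟩) :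
    j = j' ∧ h⁻¹ * h' ∈ St j := by
  have H1 := Sum.inr_injective H
  obtain rfl : j = j' := congrArg Sigma.fst H1
  have H2 : (h : GG ⧸ St j) = (h' : GG ⧸ St j) := eq_of_heq (Sigma.mk.inj_iff.1 H1).2
  exact ⟨rfl, QuotientGroup.eq.1 H2⟩

theorem sig_eq {j j' : Fin 3} {h h' : GG} (e : j = j') (H : h⁻¹ * h' ∈ St j) :
    (Sum.inr ⟨j, (h : GG ⧸ St j)⟩ : VV) = Sum.inr ⟨j', (h' : GG ⧸ St j')⟩ := by
  subst e
  rw [QuotientGroup.eq.2 H]

theorem psi_inj (i i' : ℕ) (hi : i < 17) (hi' : i' < 17) (h : psi i = psi i') : i = i' := by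
  by_cases h1 : i < 13
  · by_cases h2 : i' < 13
    · rw [psi_lt i h1, psi_lt i' h2] at h
      exact congrArg Fin.val (Sum.inl_injective h)
    · rw [psi_lt i h1, psi_ge i' h2] at h
      cases h
  · by_cases h2 : i' < 13
    · rw [psi_ge i h1, psi_lt i' h2] at h
      cases h
    · rw [psi_ge i h1, psi_ge i' h2] at h
      obtain ⟨h3, h4⟩ := sig_inj h
      refine F7 i i' hi hi' (by omega) (by omega) h3 ?_
      by_cases hs : stb (jf i) = true
      · exact Or.inr hs
      · left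
        have h5 := St_false _ hs _ h4
        have h6 : hh i = hh i' := inv_mul_eq_one.1 h5
        unfold hh at h6
        by_cases hb1 : hb i = true <;> by_cases hb2 : hb i' = true
        · rw [hb1, hb2]
        · rw [if_pos hb1, if_neg hb2] at h6
          exact absurd h6 tt_ne
        · rw [if_neg hb1, if_pos hb2] at h6
          exact absurd h6.symm tt_ne
        · rw [Bool.not_eq_true] at hb1 hb2
          rw [hb1, hb2]

theorem aV_tt (i : ℕ) (hi : i < 17) : aV tt (psi i) = psi (tau i) := by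
  by_cases h1 : i < 13
  · have h2 := F8' ⟨i, h1⟩
    simp only at h2
    have h3 : tau i < 13 := by rw [h2]; exact (gt' ⟨i, h1⟩).isLt
    rw [psi_lt i h1, psi_lt _ h3, aV_inl, tt_act]
    congr 1
    exact Fin.ext h2.symm
  · obtain ⟨h2, h3, h4, h5, h6⟩ := F8 i hi (by omega)
    rw [psi_ge i h1, psi_ge _ (by omega), aV_mk]
    refine sig_eq h2.symm ?_
    by_cases hs : stb (jf i) = true
    · rw [h5 hs]
      have h7 : (tt * hh i)⁻¹ * hh i = 1 ∨ (tt * hh i)⁻¹ * hh i = tt :=
        mem_zp _ (mul_mem (inv_mem (mul_mem (Subgroup.mem_zpowers tt) (hh_mem i))) (hh_mem i))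
      rcases h7 with h7 | h7
      · rw [h7]; exact one_mem _
      · rw [h7]; exact St_true _ hs
    · have h7 := h6 (by simpa using hs)
      have h8 : hh (tau i) = tt * hh i := by
        unfold hh
        rw [h7]
        cases hb i
        · simp
        · simp [tt_mul]
      rw [h8, inv_mul_cancel]
      exact one_mem _

theorem bit_lt (m : ℕ) (hm : m ∈ MM) (i : ℕ) (hi : m.testBit i = true) : i < 17 := by
  by_contra h
  have h2 : m < 2 ^ i := (F1 m hm).trans_le (Nat.pow_le_pow_right (by norm_num) (by omega))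
  rw [Nat.testBit_lt_two_pow h2] at hi
  exact Bool.noConfusion hi

theorem good_one : Good aV psi MM 1 := fun m hm => ⟨m, hm, fun i hi => ⟨i, hi, by
  rw [map_one]; rfl⟩⟩

theorem good_tt : Good aV psi MM tt := by
  intro m hm
  obtain ⟨m', hm', h⟩ := F4 m hm
  refine ⟨m', hm', fun i hi => ?_⟩
  have h1 := bit_lt m hm i hi
  exact ⟨tau i, h i h1 hi, aV_tt i h1⟩

theorem lev_aV (g : GG) (v : VV) : lev (aV g v) = lev v := by
  rcases v with x | ⟨j, x⟩ <;> rfl

theorem sb_bits (m m' mask : ℕ) (h : (m &&& mask) &&& m' = m &&& mask) (i : ℕ)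
    (hi : m.testBit i = true) (hk : mask.testBit i = true) : m'.testBit i = true := by
  have h2 : ((m &&& mask) &&& m').testBit i = true := by
    rw [h, Nat.testBit_land, hi, hk]; rfl
  rw [Nat.testBit_land] at h2
  exact (Bool.and_eq_true_iff.1 h2).2

theorem win : Win (Sorb aV psi MM) ∅ ∅ := by
  refine orbit_win aV psi MM 17 lev 3 lev_aV bit_lt psi_inj ?_ ?_ ?_ ?_ ?_ (fun j => uu (j - 1))
    (fun j => 2 ^ (uu (j - 1)) - 1) (fun j => tLink (j - 1)) tFin ?_ ?_ ?_ check_fin
  · rintro (x | ⟨j, x⟩)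
    · exact Nat.zero_le _
    · have := j.isLt
      show j.val + 1 ≤ 3
      omega
  · rintro (x | ⟨j, x⟩) h
    · exact ⟨x.val, by omega, psi_lt x.val x.isLt⟩
    · exact absurd h (Nat.succ_ne_zero _)
  · -- invariance of the base
    intro g m hm
    obtain ⟨f, hf, h1⟩ := F2 m hm
    let s : Finset (Fin 13) := Finset.univ.filter fun i => m.testBit i.val = true
    have hs : s ∈ KK := by
      refine ⟨f, hf, fun i hi => ?_⟩
      refine sb_bits m f 8191 h1 i.val (Finset.mem_filter.1 hi).2 ?_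
      have : ∀ i : Fin 13, (8191 : ℕ).testBit i.val = true := by decide
      exact this i
    obtain ⟨f', hf', h2⟩ := (act_inv g s).2 hs
    obtain ⟨m', hm', h3⟩ := F3 f' hf'
    refine ⟨m', hm', fun i hi hl => ?_⟩
    have hi13 : i < 13 := by
      by_contra h
      rw [lev_ge i h] at hl
      omega
    refine ⟨(act g ⟨i, hi13⟩).val, ?_, ?_⟩
    · have h4 := h2 (act g ⟨i, hi13⟩) (Finset.mem_map.2 ⟨⟨i, hi13⟩,
        Finset.mem_filter.2 ⟨Finset.mem_univ _, hi⟩, rfl⟩)
      have h5 : (f' &&& m').testBit (act g ⟨i, hi13⟩).val = true := by rw [h3]; exact h4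
      rw [Nat.testBit_land] at h5
      exact (Bool.and_eq_true_iff.1 h5).2
    · rw [psi_lt i hi13, psi_lt _ (act g ⟨i, hi13⟩).isLt, aV_inl]
  · -- the translations inside the chart
    rintro g i hi hl ⟨i', hi', he⟩
    have h1 : ¬ i < 13 := fun h => hl (lev_lt i h)
    have h2 : ¬ i' < 13 := by
      intro h
      have h3 := congrArg lev he
      rw [lev_aV, lev_lt i' h] at h3
      exact hl h3.symm
    rw [psi_ge i h1, psi_ge i' h2, aV_mk] at he
    obtain ⟨-, h3⟩ := sig_inj he
    have h4 := St_le _ h3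
    have h5 : g ∈ Subgroup.zpowers tt := by
      have h6 := mul_mem (mul_mem (hh_mem i') h4) (inv_mem (hh_mem i))
      have h7 : hh i' * ((hh i')⁻¹ * (g * hh i)) * (hh i)⁻¹ = g := by group
      rwa [h7] at h6
    rcases mem_zp g h5 with rfl | rfl
    · exact good_one
    · exact good_tt
  · -- one vertex of every level
    intro m hm i i' hi hi' hl hl0
    have h1 : ¬ i < 13 := fun h => hl0 (lev_lt i h)
    have h2 : ¬ i' < 13 := fun h => hl0 (hl.trans (lev_lt i' h))
    rw [lev_ge i h1, lev_ge i' h2] at hl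
    exact F5 m hm i i' (bit_lt m hm i hi) (bit_lt m hm i' hi') (by omega) (by omega)
      (Fin.ext (by omega)) hi hi'
  · intro j hj1 hjE
    obtain ⟨h1, h2, h3, h4, h5⟩ := F9 (j - 1) (by omega)
    have h6 : ¬ uu (j - 1) < 13 := by omega
    refine ⟨h2, ?_, ?_⟩
    · show lev (psi (uu (j - 1))) = j
      rw [lev_ge _ h6, h3]; omega
    · rintro (x | ⟨j', x⟩) hv
      · have : (0 : ℕ) = j := hv
        omega
      · obtain ⟨h, rfl⟩ := QuotientGroup.mk_surjective x
        have hv' : j'.val + 1 = j := hv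
        refine ⟨h, ?_⟩
        show aV h (psi (uu (j - 1))) = _
        rw [psi_ge _ h6, aV_mk]
        refine sig_eq (Fin.ext (by omega)) ?_
        have h7 : hh (uu (j - 1)) = 1 := by
          unfold hh
          rw [h4]
          rfl
        rw [h7, mul_one, inv_mul_cancel]
        exact one_mem _
  · intro j hj1 hjE i
    obtain ⟨h1, h2, h3, h4, h5⟩ := F9 (j - 1) (by omega)
    show (2 ^ (uu (j - 1)) - 1).testBit i = true ↔ _
    rw [Nat.testBit_two_pow_sub_one, decide_eq_true_eq]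
    constructor
    · intro hi
      have hiN : i < 17 := hi.trans h2
      refine ⟨hiN, ?_⟩
      rcases (h5 i hiN).2 hi with h | h
      · rw [lev_lt i h]; omega
      · by_cases h13 : i < 13
        · rw [lev_lt i h13]; omega
        · rw [lev_ge i h13]; omega
    · rintro ⟨hiN, hl⟩
      apply (h5 i hiN).1
      by_cases h13 : i < 13
      · exact Or.inl h13
      · right
        rw [lev_ge i h13] at hl
        omega
  · intro j hj1 hjE
    exact FB (j - 1) (by omega)

/-- The types. -/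
def typ : VV → ZMod 6 :=
  Sum.elim (fun i => (((blk13 i).val : ℕ) : ZMod 6)) (fun x => ((x.1.val + 3 : ℕ) : ZMod 6))

theorem typ_surj : Function.Surjective typ := by
  intro i
  obtain ⟨k, hk, rfl⟩ : ∃ k : ℕ, k < 6 ∧ (k : ZMod 6) = i :=
    ⟨i.val, ZMod.val_lt i, ZMod.natCast_zmod_val i⟩
  by_cases h : k < 3
  · interval_cases k
    · exact ⟨Sum.inl 0, rfl⟩
    · exact ⟨Sum.inl 5, rfl⟩
    · exact ⟨Sum.inl 11, rfl⟩
  · refine ⟨Sum.inr ⟨⟨k - 3, by omega⟩, ((1 : GG) : GG ⧸ St _)⟩, ?_⟩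
    show ((k - 3 + 3 : ℕ) : ZMod 6) = (k : ZMod 6)
    rw [Nat.sub_add_cancel (by omega)]

theorem castK : (∀ a b : Fin 3, ((a.val : ℕ) : ZMod 6) = ((b.val : ℕ) : ZMod 6) → a = b) ∧
    (∀ a b : Fin 3, ((a.val + 3 : ℕ) : ZMod 6) = ((b.val + 3 : ℕ) : ZMod 6) → a = b) ∧
    (∀ (a : Fin 3) (b : Fin 3), ((a.val : ℕ) : ZMod 6) ≠ ((b.val + 3 : ℕ) : ZMod 6)) := by
  decide

theorem typ_aV (g : GG) (v : VV) : typ (aV g v) = typ v := by
  rcases v with x | ⟨j, x⟩
  · rw [aV_inl]
    show (((blk13 (act g x)).val : ℕ) : ZMod 6) = (((blk13 x).val : ℕ) : ZMod 6)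
    rw [act_blk]
  · rfl

theorem bp_eq : ∀ i i' : Fin 13, blk13 i = blk13 i' → bp i = bp i' := by decide

theorem typ_trans (u v : VV) (h : typ u = typ v) : ∃ g : GG, aV g u = v := by
  rcases u with x | ⟨j, x⟩ <;> rcases v with y | ⟨j', y⟩
  · have h1 := bp_eq x y (castK.1 _ _ h)
    obtain ⟨g, hg⟩ := trans13 x
    obtain ⟨g', hg'⟩ := trans13 y
    refine ⟨g' * g⁻¹, ?_⟩
    rw [aV_inl, map_mul, Equiv.Perm.mul_apply, ← hg]
    have h2 : act g⁻¹ (act g (bp x)) = bp x := inv_app act g (bp x)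
    have h3 : act g (bp x) = x := hg
    congr 1
    rw [h3] at h2
    rw [h3, h2, h1, hg']
  · exact absurd h (castK.2.2 _ _)
  · exact absurd h.symm (castK.2.2 _ _)
  · obtain rfl := castK.2.1 _ _ h
    obtain ⟨g, hg⟩ := MulAction.exists_smul_eq GG x y
    exact ⟨g, by rw [aV_inr, hg]⟩

theorem F6' : ∀ m ∈ MM, ∀ b : Fin 3, ∃ p : Fin 13, blk13 p = b ∧ m.testBit p.val = false := by
  decide +kernel

theorem exists_x5 (j : Fin 3) : ∃ x : GG, x ∉ St j := by
  obtain ⟨x, hx⟩ := exists_5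
  refine ⟨x, fun h => ?_⟩
  rcases mem_zp x (St_le j h) with rfl | rfl
  · rw [map_one] at hx
    have := congrArg (fun e : Equiv.Perm (Fin 13) => e 0) hx
    exact absurd this (by decide)
  · rw [tt_act] at hx
    have := congrArg (fun e : Equiv.Perm (Fin 13) => e 0) hx
    exact absurd this (by decide)

theorem fib (i : ZMod 6) : ¬ Sorb aV psi MM {v | typ v = i} := by
  rintro ⟨g, m, hm, h⟩
  obtain ⟨v, hv⟩ := typ_surj i
  rcases v with x | ⟨j, x⟩
  · obtain ⟨p, hp, hmp⟩ := F6' m hm (blk13 x)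
    obtain ⟨k, hk, he⟩ := h (Sum.inl (act g p)) (by
      show (((blk13 (act g p)).val : ℕ) : ZMod 6) = i
      rw [act_blk, hp]
      exact hv)
    have h1 : psi k = Sum.inl p := (aV g).injective (he.symm.trans (aV_inl g p).symm)
    have h2 : psi p.val = Sum.inl p := psi_lt p.val p.isLt
    have h3 : k = p.val := psi_inj k p.val (bit_lt m hm k hk) (by omega) (h1.trans h2.symm)
    rw [h3, hmp] at hk
    exact Bool.noConfusion hk
  · obtain ⟨y, hy⟩ := exists_x5 j
    have hv' : ((j.val + 3 : ℕ) : ZMod 6) = i := hv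
    obtain ⟨k, hk, he⟩ := h (Sum.inr ⟨j, ((1 : GG) : GG ⧸ St j)⟩) hv'
    obtain ⟨k', hk', he'⟩ := h (Sum.inr ⟨j, ((y : GG) : GG ⧸ St j)⟩) hv'
    have h1 : lev (psi k) = j.val + 1 := by
      rw [← lev_aV g, ← he]; rfl
    have h2 : lev (psi k') = j.val + 1 := by
      rw [← lev_aV g, ← he']; rfl
    have h13 : ¬ k < 13 := fun h => by rw [lev_lt k h] at h1; omega
    have h13' : ¬ k' < 13 := fun h => by rw [lev_lt k' h] at h2; omega
    rw [lev_ge k h13] at h1
    rw [lev_ge k' h13'] at h2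
    have h3 : k = k' := F5 m hm k k' (bit_lt m hm k hk) (bit_lt m hm k' hk') (by omega) (by omega)
      (Fin.ext (by omega)) hk hk'
    have h4 := (he.trans (by rw [h3])).trans he'.symm
    obtain ⟨-, h5⟩ := sig_inj h4
    rw [inv_one, one_mul] at h5
    exact hy h5

theorem card_C : Nat.card (Subgroup.zpowers tt) = 2 := by
  rw [Nat.card_zpowers]
  exact orderOf_eq_prime (by rw [pow_two]; exact tt_mul) tt_ne

theorem card_quot (j : Fin 3) : Nat.card (GG ⧸ St j) = if stb j = true then 60 else 120 := by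
  have h1 := Subgroup.card_eq_card_quotient_mul_card_subgroup (St j)
  rw [card_eq] at h1
  split_ifs with h
  · have h3 : Nat.card (St j) = 2 := by
      unfold St
      rw [if_pos h]
      exact card_C
    rw [h3] at h1
    omega
  · have h3 : Nat.card (St j) = 1 := by
      unfold St
      rw [if_neg h]
      exact Nat.card_unique
    rw [h3] at h1
    omega

/-- The sizes of the types. -/
def bd : ZMod 6 → ℕ := fun i => ([5, 6, 2, 60, 60, 120] : List ℕ).getD i.val 0

theorem bd_inr : ∀ j : Fin 3, (if stb j = true then 60 else 120) =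
    bd (((j.val + 3 : ℕ) : ZMod 6)) := by decide

theorem bd_inl : ∀ b : Fin 3, (Finset.univ.filter fun p : Fin 13 => blk13 p = b).card =
    bd (((b.val : ℕ) : ZMod 6)) := by decide

theorem card_typ (i : ZMod 6) : Nat.card {v : VV // typ v = i} = bd i := by
  obtain ⟨v, hv⟩ := typ_surj i
  rcases v with x | ⟨j, x⟩
  · have hv' : (((blk13 x).val : ℕ) : ZMod 6) = i := hv
    have h1 : Nat.card {v : VV // typ v = i} =
        Nat.card {p : Fin 13 // blk13 p = blk13 x} := by
      refine (Nat.card_congr (Equiv.ofBijective (fun p : {p : Fin 13 // blk13 p = blk13 x} =>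
        (⟨Sum.inl p.1, by
          show (((blk13 p.1).val : ℕ) : ZMod 6) = i
          rw [p.2, hv']⟩ : {v : VV // typ v = i})) ⟨?_, ?_⟩)).symm
      · intro p q hpq
        exact Subtype.ext (Sum.inl_injective (congrArg Subtype.val hpq))
      · rintro ⟨y | ⟨j, y⟩, hy⟩
        · have h2 : blk13 y = blk13 x := castK.1 _ _ (hy.trans hv'.symm)
          exact ⟨⟨y, h2⟩, rfl⟩
        · exact absurd (hv'.trans hy.symm) (castK.2.2 _ _)
    rw [h1, Nat.card_eq_fintype_card, Fintype.card_subtype, bd_inl, hv']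
  · have hv' : ((j.val + 3 : ℕ) : ZMod 6) = i := hv
    have h1 : Nat.card {v : VV // typ v = i} = Nat.card (GG ⧸ St j) := by
      refine (Nat.card_congr (Equiv.ofBijective (fun q : GG ⧸ St j =>
        (⟨Sum.inr ⟨j, q⟩, hv'⟩ : {v : VV // typ v = i})) ⟨?_, ?_⟩)).symm
      · intro p q hpq
        have h2 := Sum.inr_injective (congrArg Subtype.val hpq)
        exact eq_of_heq (Sigma.mk.inj_iff.1 h2).2
      · rintro ⟨y | ⟨j', y⟩, hy⟩
        · exact absurd (hy.trans hv'.symm) (castK.2.2 _ _)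
        · obtain rfl := castK.2.1 _ _ (hy.trans hv'.symm)
          exact ⟨y, rfl⟩
    rw [h1, card_quot, bd_inr, hv']

theorem prod_bd : 6 * ∏ i : ZMod 6, (2 * bd i) = 9953280000 := by decide +kernel

theorem card_words : Nat.card (Word typ) = 9953280000 := by
  rw [card_word, ← prod_bd]
  congr 1
  exact Finset.prod_congr rfl fun i _ => by rw [card_typ]

theorem typ_aut (u v : VV) (h : typ u = typ v) : ∃ g : Equiv.Perm VV, g u = v ∧
    (∀ x, typ (g x) = typ x) ∧ ∀ A : Set VV, Sorb aV psi MM (g '' A) ↔ Sorb aV psi MM A := by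
  obtain ⟨g, hg⟩ := typ_trans u v h
  exact ⟨aV g, hg, typ_aV g, sorb_smul aV psi MM g⟩

theorem MM_ne : MM ≠ [] := by decide

/-- A monotone transitive function of `9953280000` variables which is not evasive. -/
theorem small : ∃ (W : Type) (_ : Fintype W) (f : (W → Bool) → Bool)
    (T : Pool.Agent.H128R2.Evas.DT W), Fintype.card W = 9953280000 ∧ Monotone f ∧
    (∃ x y, f x ≠ f y) ∧
    (∀ i j : W, ∃ σ : Equiv.Perm W, σ i = j ∧ ∀ x : W → Bool, f (x ∘ σ) = f x) ∧
    (∀ x, T.eval x = f x) ∧ T.depth + 1 ≤ Fintype.card W := by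
  have h := assemble typ (Sorb aV psi MM) typ_surj (sorb_down aV psi MM)
    (sorb_empty aV psi MM MM_ne) fib typ_aut win
  rwa [card_words] at h

/-- A monotone function of `9953280000` variables with a transitive group which acts
faithfully on `54` points, not evasive. -/
theorem datum : Datum 54 (9953280000 - 1) 9953280000 := by
  have h := word_datum typ aV (Sorb aV psi MM) typ_surj (sorb_down aV psi MM)
    (sorb_empty aV psi MM MM_ne) fib typ_aV (sorb_smul aV psi MM) typ_trans r7' r7'_inj win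
  rw [card_words] at h
  exact h

end Pool.Agent.H393.EV
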