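import Pool.Graph.R_seed8.H571R3.Red

/-! Certificates of nonevasiveness, checked by the kernel on bitmasks.  (helper393) -/

set_option autoImplicit false

namespace Pool.Agent.H393.EV

open Pool.Agent.H571R3

/-- Certificates of nonevasiveness for a complex which is given by a list of facets (bitmasks). -/
inductive Tr : Type
  | cone (a : ℕ) : Tr
  | node (v : ℕ) (l r : Tr) : Tr
  | prune (t : Tr) : Tr

/-- `m` is contained in `m'` inside `R`. -/
def sb (R m m' : ℕ) : Bool := ((m &&& R) &&& m') == (m &&& R)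

/-- Remove the facets which are covered by another one. -/
def pr (R : ℕ) : List ℕ → List ℕ → List ℕ
  | acc, [] => acc
  | acc, m :: rest =>
    if (acc.any fun m' => sb R m m') || (rest.any fun m' => sb R m m') then pr R acc rest
    else pr R (m :: acc) rest

/-- The checker: `R` is the mask of the vertices which were not asked yet. -/
def check : Tr → List ℕ → ℕ → Bool
  | .cone a, F, R => R.testBit a && F.all fun m => m.testBit a
  | .node v l r, F, R => R.testBit v &&
      (check l (F.filter fun m => m.testBit v) (R ^^^ 2 ^ v) && check r F (R ^^^ 2 ^ v))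
  | .prune t, F, R => check t (pr R [] F) R

section

variable {V : Type}

/-- The set `X` is covered by one of the facets of `F`, inside `R`. -/
def Cov (ψ : ℕ → V) (F : List ℕ) (R : ℕ) (X : Set V) : Prop :=
  ∃ m ∈ F, ∀ i, R.testBit i = true → ψ i ∈ X → m.testBit i = true

theorem sb_cov (R m m' : ℕ) (h : sb R m m' = true) (i : ℕ) (hR : R.testBit i = true)
    (hm : m.testBit i = true) : m'.testBit i = true := by
  unfold sb at h
  have h1 := beq_iff_eq.1 h
  have h2 : ((m &&& R) &&& m').testBit i = true := by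
    rw [h1, Nat.testBit_land, hm, hR]
    rfl
  rw [Nat.testBit_land] at h2
  exact (Bool.and_eq_true_iff.1 h2).2

theorem cov_pr (ψ : ℕ → V) (R : ℕ) (X : Set V) : ∀ (F acc : List ℕ),
    Cov ψ (pr R acc F) R X ↔ Cov ψ acc R X ∨ Cov ψ F R X := by
  intro F
  induction F with
  | nil =>
    intro acc
    constructor
    · intro h; exact Or.inl h
    · rintro (h | ⟨m, hm, -⟩)
      · exact h
      · cases hm
  | cons m rest ih =>
    intro acc
    unfold pr
    split_ifs with hc
    · rw [ih]
      constructor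
      · rintro (h | ⟨m', hm', h⟩)
        · exact Or.inl h
        · exact Or.inr ⟨m', List.mem_cons_of_mem _ hm', h⟩
      · rintro (h | ⟨m', hm', h⟩)
        · exact Or.inl h
        · rcases List.mem_cons.1 hm' with rfl | hm'
          · rw [Bool.or_eq_true] at hc
            rcases hc with hc | hc
            · obtain ⟨m'', h1, h2⟩ := List.any_eq_true.1 hc
              exact Or.inl ⟨m'', h1, fun i hi hX => sb_cov R _ _ h2 i hi (h i hi hX)⟩
            · obtain ⟨m'', h1, h2⟩ := List.any_eq_true.1 hc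
              exact Or.inr ⟨m'', h1, fun i hi hX => sb_cov R _ _ h2 i hi (h i hi hX)⟩
          · exact Or.inr ⟨m', hm', h⟩
    · rw [ih]
      constructor
      · rintro (⟨m', hm', h⟩ | ⟨m', hm', h⟩)
        · rcases List.mem_cons.1 hm' with rfl | hm'
          · exact Or.inr ⟨_, List.mem_cons_self, h⟩
          · exact Or.inl ⟨m', hm', h⟩
        · exact Or.inr ⟨m', List.mem_cons_of_mem _ hm', h⟩
      · rintro (⟨m', hm', h⟩ | ⟨m', hm', h⟩)
        · exact Or.inl ⟨m', List.mem_cons_of_mem _ hm', h⟩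
        · rcases List.mem_cons.1 hm' with rfl | hm'
          · exact Or.inl ⟨_, List.mem_cons_self, h⟩
          · exact Or.inr ⟨m', hm', h⟩

/-- The vertices of the mask. -/
def Im (ψ : ℕ → V) (R : ℕ) : Set V := {v | ∃ i, R.testBit i = true ∧ ψ i = v}

theorem tb_xor (R v i : ℕ) (hv : R.testBit v = true) :
    (R ^^^ 2 ^ v).testBit i = true ↔ R.testBit i = true ∧ i ≠ v := by
  rw [Nat.testBit_xor, Nat.testBit_two_pow]
  by_cases h : v = i
  · subst h
    simp [hv]
  · simp [h, Ne.symm h]

theorem check_sound (S : Set V → Prop) (ψ : ℕ → V) (t : Tr) :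
    ∀ (F : List ℕ) (R : ℕ), check t F R = true →
    (∀ i j, R.testBit i = true → R.testBit j = true → ψ i = ψ j → i = j) →
    ∀ T N : Set V, (∀ i, R.testBit i = true → ψ i ∉ T ∧ ψ i ∉ N) →
    (∃ P : Set V → Prop, ∀ X, T ⊆ X → Disjoint X N →
      (S X ↔ P (X \ Im ψ R) ∧ Cov ψ F R X)) → Win S T N := by
  induction t with
  | cone a =>
    intro F R hc hinj T N hTN hS
    obtain ⟨P, hP⟩ := hS
    unfold check at hc
    rw [Bool.and_eq_true] at hc
    obtain ⟨ha, hF⟩ := hc
    rw [List.all_eq_true] at hF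
    refine Win.irrel T N (ψ a) (hTN a ha).1 (hTN a ha).2 (fun X hTX hXN => ?_)
    have h1 := hP (insert (ψ a) X) (hTX.trans (Set.subset_insert _ _)) (by
      rw [Set.disjoint_left]
      rintro x (rfl | hx) hxN
      · exact (hTN a ha).2 hxN
      · exact Set.disjoint_left.1 hXN hx hxN)
    have h2 := hP (X \ {ψ a}) (fun x hx => ⟨hTX hx, fun h => (hTN a ha).1 (h ▸ hx)⟩)
      (Set.disjoint_of_subset_left Set.sdiff_subset hXN)
    have e : (insert (ψ a) X) \ Im ψ R = (X \ {ψ a}) \ Im ψ R := by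
      ext x
      constructor
      · rintro ⟨hx | hx, hxI⟩
        · exact absurd ⟨a, ha, hx.symm⟩ hxI
        · exact ⟨⟨hx, fun h => hxI ⟨a, ha, h.symm⟩⟩, hxI⟩
      · rintro ⟨⟨hx, -⟩, hxI⟩
        exact ⟨Or.inr hx, hxI⟩
    rw [h1, h2, e]
    refine and_congr_right fun _ => ?_
    constructor
    · rintro ⟨m, hm, h⟩
      exact ⟨m, hm, fun i hi hx => h i hi (Or.inr hx.1)⟩
    · rintro ⟨m, hm, h⟩
      refine ⟨m, hm, fun i hi hx => ?_⟩
      by_cases hia : i = a
      · rw [hia]; exact hF m hm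
      · have hne : ψ i ≠ ψ a := fun h' => hia (hinj i a hi ha h')
        exact h i hi ⟨hx.resolve_left hne, hne⟩
  | node v l r ihl ihr =>
    intro F R hc hinj T N hTN hS
    obtain ⟨P, hP⟩ := hS
    unfold check at hc
    rw [Bool.and_eq_true, Bool.and_eq_true] at hc
    obtain ⟨hv, hl, hr⟩ := hc
    have hR' : ∀ i, (R ^^^ 2 ^ v).testBit i = true ↔ R.testBit i = true ∧ i ≠ v :=
      fun i => tb_xor R v i hv
    have hinj' : ∀ i j, (R ^^^ 2 ^ v).testBit i = true → (R ^^^ 2 ^ v).testBit j = true →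
        ψ i = ψ j → i = j := fun i j hi hj => hinj i j ((hR' i).1 hi).1 ((hR' j).1 hj).1
    have hne : ∀ i, (R ^^^ 2 ^ v).testBit i = true → ψ i ≠ ψ v := fun i hi h =>
      ((hR' i).1 hi).2 (hinj i v ((hR' i).1 hi).1 hv h)
    refine Win.query T N (ψ v) (hTN v hv).1 (hTN v hv).2 ?_ ?_
    · refine ihl _ _ hl hinj' _ _ ?_ ⟨fun Y => P (Y \ {ψ v}), fun X hTX hXN => ?_⟩
      · intro i hi
        refine ⟨?_, (hTN i ((hR' i).1 hi).1).2⟩
        rintro (h | h)
        · exact hne i hi h
        · exact (hTN i ((hR' i).1 hi).1).1 h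
      · have hvX : ψ v ∈ X := hTX (Or.inl rfl)
        rw [hP X ((Set.subset_insert _ _).trans hTX) hXN]
        have e : (X \ Im ψ (R ^^^ 2 ^ v)) \ {ψ v} = X \ Im ψ R := by
          ext x
          constructor
          · rintro ⟨⟨hx, hxI⟩, hxv⟩
            refine ⟨hx, ?_⟩
            rintro ⟨i, hi, rfl⟩
            exact hxI ⟨i, (hR' i).2 ⟨hi, fun h => hxv (by rw [h]; rfl)⟩, rfl⟩
          · rintro ⟨hx, hxI⟩
            refine ⟨⟨hx, ?_⟩, fun h => hxI ⟨v, hv, h.symm⟩⟩
            rintro ⟨i, hi, rfl⟩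
            exact hxI ⟨i, ((hR' i).1 hi).1, rfl⟩
        simp only [e]
        refine and_congr_right fun _ => ?_
        constructor
        · rintro ⟨m, hm, h⟩
          exact ⟨m, List.mem_filter.2 ⟨hm, h v hv hvX⟩, fun i hi hx => h i ((hR' i).1 hi).1 hx⟩
        · rintro ⟨m, hm, h⟩
          obtain ⟨h1, h2⟩ := List.mem_filter.1 hm
          refine ⟨m, h1, fun i hi hx => ?_⟩
          by_cases hiv : i = v
          · rw [hiv]; exact h2
          · exact h i ((hR' i).2 ⟨hi, hiv⟩) hx
    · refine ihr _ _ hr hinj' _ _ ?_ ⟨P, fun X hTX hXN => ?_⟩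
      · intro i hi
        refine ⟨(hTN i ((hR' i).1 hi).1).1, ?_⟩
        rintro (h | h)
        · exact hne i hi h
        · exact (hTN i ((hR' i).1 hi).1).2 h
      · have hvX : ψ v ∉ X := fun h => Set.disjoint_left.1 hXN h (Or.inl rfl)
        rw [hP X hTX (Set.disjoint_of_subset_right (Set.subset_insert _ _) hXN)]
        have e : X \ Im ψ (R ^^^ 2 ^ v) = X \ Im ψ R := by
          ext x
          constructor
          · rintro ⟨hx, hxI⟩
            refine ⟨hx, ?_⟩
            rintro ⟨i, hi, rfl⟩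
            exact hxI ⟨i, (hR' i).2 ⟨hi, fun h => hvX (by rw [← h]; exact hx)⟩, rfl⟩
          · rintro ⟨hx, hxI⟩
            refine ⟨hx, ?_⟩
            rintro ⟨i, hi, rfl⟩
            exact hxI ⟨i, ((hR' i).1 hi).1, rfl⟩
        rw [e]
        refine and_congr_right fun _ => ?_
        constructor
        · rintro ⟨m, hm, h⟩
          exact ⟨m, hm, fun i hi hx => h i ((hR' i).1 hi).1 hx⟩
        · rintro ⟨m, hm, h⟩
          refine ⟨m, hm, fun i hi hx => ?_⟩
          by_cases hiv : i = v
          · exact absurd (hiv ▸ hx) hvX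
          · exact h i ((hR' i).2 ⟨hi, hiv⟩) hx
  | prune t ih =>
    intro F R hc hinj T N hTN hS
    obtain ⟨P, hP⟩ := hS
    unfold check at hc
    refine ih _ _ hc hinj T N hTN ⟨P, fun X hTX hXN => ?_⟩
    rw [hP X hTX hXN, cov_pr]
    refine and_congr_right fun _ => ⟨Or.inr, ?_⟩
    rintro (⟨m, hm, -⟩ | h)
    · cases hm
    · exact h

end

end Pool.Agent.H393.EV
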