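import Pool.Agent.H393.EV.Cert

/-! The certificate (found by a beam search): an extension of the suspension of the `A5`-acyclic
complex by cones.  Bits 0-12: the complex `KK` of the library, bits >= 13: the new vertices.
(helper393) -/

set_option autoImplicit false

namespace Pool.Agent.H393.EV

/-- The facets of the nonevasive complex. -/
def MM : List ℕ :=
  [10313, 10501, 10502, 10505, 10514, 10520, 11273, 12325, 12549, 12550, 12553, 12562, 12568,
    12805, 18467, 18469, 18572, 18577, 18584, 18949, 18961, 19473, 20515, 20547, 20553, 20611,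
    20614, 20620, 21513, 21521, 24613, 24649, 24716, 25093, 25609, 26629, 26691, 26755, 26758,
    27649, 28681, 28705, 28817, 28824, 29201, 34868, 34892, 34900, 43064, 43080, 43090, 43528,
    43538, 45108, 45138, 45140, 45586, 46100, 49194, 49228, 49236, 50182, 51224, 51724, 51728,
    52244, 54280, 54288, 57362, 57410, 57416, 61496, 61968, 70154, 70156, 70666, 75818, 75858,
    76298, 76306, 76810, 77892, 77906, 78340, 78354, 78854, 81976, 82442, 82444, 82964, 84002,
    84004, 86022, 86058, 86082, 86092, 90130, 90628, 90640, 92226, 93190]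

/-- Certificate for the whole complex. -/
def tFin : Tr :=
  (.node 8 (.cone 13) (.prune (.node 7 (.cone 14) (.prune (.node 0 (.node 1 (.cone 14) (.prune
    (.node 6 (.node 12 (.cone 3) (.prune (.cone 13))) (.prune (.node 5 (.node 11 (.cone 2)
    (.prune (.cone 13))) (.prune (.node 3 (.node 11 (.cone 10) (.prune (.cone 14))) (.prune
    (.node 12 (.node 2 (.cone 9) (.prune (.cone 4))) (.prune (.cone 14))))))))))) (.prune
    (.node 12 (.node 5 (.node 16 (.cone 1) (.node 1 (.cone 3) (.prune (.cone 4)))) (.prune
    (.node 6 (.node 3 (.cone 2) (.node 14 (.cone 16) (.prune (.cone 13)))) (.prune (.node 2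
    (.node 15 (.cone 4) (.node 4 (.cone 10) (.prune (.cone 16)))) (.prune (.node 9 (.node 3
    (.cone 1) (.prune (.cone 4))) (.prune (.node 14 (.node 1 (.cone 3) (.node 16 (.cone 3)
    (.prune (.cone 15)))) (.prune (.node 3 (.node 16 (.cone 1) (.node 13 (.cone 4) (.node 1
    (.cone 10) (.prune (.cone 15))))) (.prune (.cone 13))))))))))))) (.prune (.node 10 (.node 1
    (.node 3 (.cone 11) (.prune (.cone 2))) (.prune (.node 15 (.node 3 (.cone 14) (.prune
    (.cone 2))) (.prune (.node 3 (.cone 13) (.prune (.cone 2))))))) (.prune (.node 1 (.node 2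
    (.cone 14) (.prune (.node 9 (.node 15 (.cone 4) (.prune (.cone 16))) (.prune (.node 3
    (.cone 5) (.prune (.node 5 (.node 15 (.cone 14) (.prune (.cone 11))) (.prune (.cone
    13))))))))) (.prune (.node 4 (.node 3 (.node 16 (.cone 5) (.prune (.cone 15))) (.prune
    (.node 5 (.node 16 (.cone 14) (.prune (.cone 15))) (.prune (.node 16 (.node 6 (.cone 11)
    (.prune (.node 2 (.cone 14) (.prune (.cone 9))))) (.prune (.cone 15))))))) (.prune (.node
    11 (.node 9 (.cone 3) (.prune (.node 6 (.node 2 (.cone 3) (.prune (.cone 13))) (.prune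
    (.node 13 (.node 15 (.cone 3) (.prune (.cone 16))) (.prune (.node 16 (.cone 5) (.prune
    (.node 14 (.cone 2) (.prune (.cone 15))))))))))) (.prune (.node 5 (.node 15 (.cone 13)
    (.prune (.node 2 (.cone 14) (.prune (.cone 3))))) (.prune (.node 3 (.node 6 (.cone 14)
    (.prune (.node 16 (.cone 9) (.prune (.node 9 (.cone 15) (.prune (.cone 14))))))) (.prune
    (.node 9 (.cone 14) (.prune (.node 15 (.cone 6) (.prune (.cone 16)))))))))))))))))))))))))

/-- Certificate for the link of the new vertex 13 in the earlier vertices. -/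
def tL1 : Tr :=
  (.prune (.node 9 (.node 3 (.cone 1) (.prune (.node 2 (.cone 0) (.prune (.cone 4))))) (.prune
    (.node 10 (.node 4 (.cone 2) (.prune (.node 0 (.cone 3) (.prune (.cone 1))))) (.prune
    (.node 5 (.node 2 (.cone 12) (.prune (.node 0 (.cone 12) (.prune (.cone 3))))) (.prune
    (.node 6 (.node 3 (.cone 0) (.prune (.node 2 (.cone 4) (.prune (.cone 1))))) (.prune (.node
    4 (.node 2 (.cone 12) (.prune (.node 11 (.cone 8) (.prune (.cone 12))))) (.prune (.node 3
    (.node 2 (.cone 7) (.prune (.node 7 (.cone 12) (.prune (.node 12 (.cone 0) (.prune (.cone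
    11))))))) (.prune (.node 12 (.node 1 (.cone 2) (.prune (.cone 0))) (.prune (.cone
    11))))))))))))))))

/-- Certificate for the link of the new vertex 14 in the earlier vertices. -/
def tL2 : Tr :=
  (.prune (.node 9 (.node 12 (.cone 0) (.node 1 (.cone 3) (.prune (.node 3 (.cone 2) (.prune
    (.cone 0)))))) (.prune (.node 6 (.node 4 (.cone 2) (.prune (.node 2 (.cone 3) (.prune
    (.cone 0))))) (.prune (.node 5 (.node 2 (.cone 0) (.prune (.node 11 (.cone 0) (.prune
    (.cone 12))))) (.prune (.node 1 (.node 4 (.cone 13) (.prune (.node 10 (.cone 2) (.prune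
    (.node 3 (.cone 12) (.prune (.cone 7))))))) (.prune (.node 12 (.node 2 (.cone 3) (.prune
    (.node 10 (.cone 0) (.prune (.cone 13))))) (.prune (.node 3 (.node 10 (.cone 0) (.node 0
    (.cone 13) (.prune (.cone 7)))) (.prune (.node 2 (.cone 11) (.prune (.cone
    0))))))))))))))))

/-- Certificate for the link of the new vertex 15 in the earlier vertices. -/
def tL3 : Tr :=
  (.node 5 (.node 1 (.cone 3) (.prune (.cone 4))) (.prune (.node 10 (.node 3 (.cone 12) (.prune
    (.node 1 (.cone 2) (.prune (.cone 4))))) (.prune (.node 12 (.cone 4) (.prune (.node 9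
    (.node 1 (.cone 4) (.node 2 (.cone 3) (.node 3 (.cone 11) (.prune (.cone 4))))) (.prune
    (.node 1 (.node 3 (.cone 14) (.prune (.node 2 (.cone 14) (.prune (.cone 13))))) (.prune
    (.node 13 (.node 2 (.cone 4) (.prune (.node 14 (.cone 3) (.prune (.cone 11))))) (.prune
    (.node 3 (.node 4 (.cone 11) (.prune (.cone 2))) (.prune (.cone 2)))))))))))))))

theorem check_fin : check tFin MM (2 ^ 17 - 1) = true := by decide +kernel

theorem check_1 : check tL1 (MM.filter fun m => m.testBit 13) (2 ^ 13 - 1) = true := by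
  decide +kernel

theorem check_2 : check tL2 (MM.filter fun m => m.testBit 14) (2 ^ 14 - 1) = true := by
  decide +kernel

theorem check_3 : check tL3 (MM.filter fun m => m.testBit 15) (2 ^ 15 - 1) = true := by
  decide +kernel

end Pool.Agent.H393.EV
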