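import Pool.Agent.H393.EV.Tab
import Pool.Agent.H393.EV.W1Chk

/-! The certificates with the leaf condition.  (helper393) -/

set_option autoImplicit false

namespace Pool.Agent.H393.EV

/-- The type of a vertex of the chart. -/
def tyc (i : ℕ) : ℕ := if i < 5 then 0 else if i < 11 then 1 else if i < 13 then 2
  else 3 + (jf i).val

/-- Certificate for the whole complex. -/
def sFin : Tr :=
  (.node 8 (.cone 13) (.prune (.node 7 (.cone 14) (.prune (.node 0 (.node 1 (.cone 14) (.prune
    (.node 6 (.node 12 (.cone 3) (.prune (.cone 13))) (.prune (.node 5 (.node 11 (.cone 2)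
    (.prune (.cone 13))) (.prune (.node 3 (.node 11 (.cone 10) (.prune (.cone 14))) (.prune
    (.node 12 (.node 2 (.cone 9) (.prune (.cone 4))) (.prune (.cone 14))))))))))) (.prune
    (.node 12 (.node 5 (.node 16 (.cone 1) (.node 1 (.cone 3) (.prune (.cone 4)))) (.prune
    (.node 6 (.node 3 (.cone 2) (.node 14 (.cone 16) (.prune (.cone 13)))) (.prune (.node 2
    (.node 15 (.cone 4) (.node 4 (.cone 10) (.prune (.cone 16)))) (.prune (.node 9 (.node 3
    (.cone 1) (.prune (.cone 4))) (.prune (.node 14 (.node 1 (.cone 3) (.node 16 (.cone 3)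
    (.prune (.cone 15)))) (.prune (.node 3 (.node 16 (.cone 1) (.node 13 (.cone 4) (.node 1
    (.cone 10) (.prune (.cone 15))))) (.prune (.cone 13))))))))))))) (.prune (.node 10 (.node 1
    (.node 3 (.cone 11) (.prune (.cone 2))) (.prune (.node 15 (.node 3 (.cone 14) (.prune
    (.cone 2))) (.prune (.node 3 (.cone 13) (.prune (.cone 2))))))) (.prune (.node 1 (.node 2
    (.cone 14) (.prune (.node 9 (.node 15 (.cone 4) (.prune (.cone 16))) (.prune (.node 3
    (.cone 5) (.prune (.node 5 (.node 15 (.cone 14) (.prune (.cone 11))) (.prune (.cone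
    13))))))))) (.prune (.node 4 (.node 3 (.node 16 (.cone 5) (.prune (.cone 15))) (.prune
    (.node 5 (.node 16 (.cone 14) (.prune (.cone 15))) (.prune (.node 16 (.node 6 (.cone 11)
    (.prune (.node 2 (.cone 14) (.prune (.cone 9))))) (.prune (.cone 15))))))) (.prune (.node
    11 (.node 9 (.cone 3) (.prune (.node 6 (.node 2 (.cone 3) (.prune (.cone 13))) (.prune
    (.node 13 (.node 15 (.cone 3) (.prune (.cone 16))) (.prune (.node 16 (.cone 5) (.prune
    (.node 14 (.cone 2) (.prune (.cone 15))))))))))) (.prune (.node 5 (.node 15 (.cone 13)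
    (.prune (.node 2 (.cone 14) (.prune (.cone 3))))) (.prune (.node 3 (.node 6 (.cone 14)
    (.prune (.node 16 (.cone 9) (.prune (.node 9 (.cone 15) (.prune (.cone 14))))))) (.prune
    (.node 9 (.cone 14) (.prune (.node 15 (.cone 6) (.prune (.cone 16)))))))))))))))))))))))))

/-- Certificate for the link of the new vertex 13. -/
def sL1 : Tr :=
  (.prune (.node 9 (.node 3 (.node 0 (.cone 1) (.cone 1)) (.prune (.node 2 (.cone 0) (.prune
    (.cone 4))))) (.prune (.node 10 (.node 4 (.node 0 (.cone 1) (.cone 2)) (.prune (.node 0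
    (.cone 3) (.prune (.cone 1))))) (.prune (.node 5 (.node 2 (.node 11 (.cone 0) (.cone 12))
    (.prune (.node 0 (.node 11 (.cone 1) (.cone 12)) (.prune (.cone 3))))) (.prune (.node 6
    (.node 3 (.node 1 (.cone 0) (.cone 0)) (.prune (.node 2 (.cone 4) (.prune (.cone 1)))))
    (.prune (.node 4 (.node 2 (.node 11 (.cone 0) (.cone 12)) (.prune (.node 11 (.cone 8)
    (.prune (.cone 12))))) (.prune (.node 3 (.node 2 (.cone 7) (.prune (.node 7 (.node 11
    (.cone 0) (.cone 12)) (.prune (.node 12 (.cone 0) (.prune (.cone 11))))))) (.prune (.node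
    12 (.node 1 (.cone 2) (.prune (.cone 0))) (.prune (.cone 11))))))))))))))))

/-- Certificate for the link of the new vertex 14. -/
def sL2 : Tr :=
  (.prune (.node 9 (.node 12 (.cone 13) (.node 1 (.node 0 (.cone 2) (.cone 3)) (.prune (.node 3
    (.cone 2) (.prune (.cone 0)))))) (.prune (.node 6 (.node 4 (.node 0 (.cone 1) (.cone 2))
    (.prune (.node 2 (.cone 3) (.prune (.cone 0))))) (.prune (.node 5 (.node 2 (.node 1 (.cone
    0) (.cone 0)) (.prune (.node 11 (.cone 0) (.prune (.cone 12))))) (.prune (.node 1 (.node 4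
    (.cone 13) (.prune (.node 10 (.cone 2) (.prune (.node 3 (.node 11 (.cone 0) (.cone 12))
    (.prune (.cone 7))))))) (.prune (.node 12 (.node 2 (.cone 3) (.prune (.node 10 (.cone 0)
    (.prune (.cone 13))))) (.prune (.node 3 (.node 10 (.cone 0) (.node 0 (.cone 13) (.prune
    (.cone 7)))) (.prune (.node 2 (.cone 11) (.prune (.cone 0))))))))))))))))

/-- Certificate for the link of the new vertex 15. -/
def sL3 : Tr :=
  (.node 5 (.node 1 (.cone 14) (.prune (.cone 4))) (.prune (.node 10 (.node 3 (.cone 14) (.prune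
    (.node 1 (.cone 2) (.prune (.cone 4))))) (.prune (.node 12 (.cone 13) (.prune (.node 9
    (.node 1 (.cone 11) (.node 2 (.cone 3) (.node 3 (.cone 11) (.prune (.cone 4))))) (.prune
    (.node 1 (.node 3 (.cone 14) (.prune (.node 2 (.cone 14) (.prune (.cone 13))))) (.prune
    (.node 13 (.node 2 (.cone 4) (.prune (.node 14 (.cone 3) (.prune (.cone 11))))) (.prune
    (.node 3 (.node 4 (.cone 11) (.prune (.cone 2))) (.prune (.cone 2)))))))))))))))

/-- The certificates of the links. -/
def sLink (j : ℕ) : Tr := ([sL1, sL2, sL3] : List Tr).getD j (.cone 0)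

theorem check1_fin : check1 tyc false sFin MM (2 ^ 17 - 1) 56 = true := by decide +kernel

/-- The types with an absent vertex in the stage `j`. -/
def aLink (j : ℕ) : ℕ := (2 ^ j - 1) * 8

theorem FB1 : ∀ j < 3, check1 tyc true (sLink j) (MM.filter fun m => m.testBit (uu j))
    (2 ^ (uu j) - 1) (aLink j) = true := by
  decide +kernel

end Pool.Agent.H393.EV
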