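import Pool.Agent.H684.EV.Base

/-! The group `A5 × C2` acting on the thirteen vertices.  (helper393) -/

set_option autoImplicit false

namespace Pool.Agent.H393.EV

open Pool.Agent.H571R3 Pool.Agent.R282.EV Pool.Agent.H684.EV

/-- The sign of the action on the five points. -/
def sg5 : G0 →* ℤˣ :=
  (Equiv.Perm.sign (α := Fin 5)).comp
    ((MonoidHom.fst (Equiv.Perm (Fin 5)) (Equiv.Perm (Fin 6) × Equiv.Perm (Fin 2))).comp G0.subtype)

/-- The symmetries which are even on the five points. -/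
abbrev GG : Type := sg5.ker

/-- The action on the thirteen points. -/
def act : GG →* Equiv.Perm (Fin 13) := J.comp (G0.subtype.comp sg5.ker.subtype)

theorem act_inv (g : GG) : Inv (act g) := G0_inv g.1

theorem mkG (x : P3) (hx : Inv (J x)) (hs : Equiv.Perm.sign x.1 = 1) :
    ∃ g : GG, g.1.1 = x := ⟨⟨⟨x, hx⟩, hs⟩, rfl⟩

/-- Faithful action on seven points. -/
def r7' : GG →* Equiv.Perm (Fin 5 ⊕ Fin 2) := r7.comp sg5.ker.subtype

theorem r7'_inj : Function.Injective r7' := by
  unfold r7'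
  rw [MonoidHom.coe_comp]
  exact r7_inj.comp (Subgroup.subtype_injective _)

instance : Finite GG := by
  have : Finite G0 := inferInstance
  infer_instance

theorem card_GG : Nat.card GG ≤ 120 := by
  let f : GG → alternatingGroup (Fin 5) × Equiv.Perm (Fin 2) := fun g =>
    (⟨g.1.1.1, g.2⟩, g.1.1.2.2)
  have hf : Function.Injective f := by
    intro g h hgh
    apply r7'_inj
    have h1 := (Prod.mk.inj hgh).1
    have h2 := (Prod.mk.inj hgh).2
    have h3 : g.1.1.1 = h.1.1.1 := congrArg Subtype.val h1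
    show Equiv.Perm.sumCongrHom (Fin 5) (Fin 2) (g.1.1.1, g.1.1.2.2) =
      Equiv.Perm.sumCongrHom (Fin 5) (Fin 2) (h.1.1.1, h.1.1.2.2)
    rw [h3, h2]
  have h1 := Nat.card_le_card_of_injective f hf
  have h2 : Nat.card (alternatingGroup (Fin 5)) = 60 := by
    have h3 := two_mul_nat_card_alternatingGroup (α := Fin 5)
    rw [Nat.card_perm, Nat.card_fin] at h3
    have : Nat.factorial 5 = 120 := rfl
    omega
  rw [Nat.card_prod, h2, Nat.card_perm, Nat.card_fin] at h1
  have : Nat.factorial 2 = 2 := rfl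
  omega

theorem inv_of_maps (g : Equiv.Perm (Fin 13))
    (h : ∀ m ∈ facets, ∃ m' ∈ facets, ∀ i : Fin 13, m.testBit i.val = true →
      m'.testBit (g i).val = true)
    (h' : ∀ m ∈ facets, ∃ m' ∈ facets, ∀ i : Fin 13, m.testBit i.val = true →
      m'.testBit (g.symm i).val = true) : Inv g := by
  have key : ∀ (e : Equiv.Perm (Fin 13)), (∀ m ∈ facets, ∃ m' ∈ facets, ∀ i : Fin 13,
      m.testBit i.val = true → m'.testBit (e i).val = true) → ∀ s : Finset (Fin 13), s ∈ KK →
      s.map e.toEmbedding ∈ KK := by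
    rintro e he s ⟨m, hm, hi⟩
    obtain ⟨m', hm', h2⟩ := he m hm
    refine ⟨m', hm', fun j hj => ?_⟩
    rw [Finset.mem_map] at hj
    obtain ⟨i, his, rfl⟩ := hj
    exact h2 i (hi i his)
  intro s
  constructor
  · intro hs
    have h3 := key g.symm h' _ hs
    have e : (s.map g.toEmbedding).map g.symm.toEmbedding = s := by
      ext x
      simp
    rwa [e] at h3
  · exact key g h s

/-- An involution of the five points. -/
def at' : Equiv.Perm (Fin 5) where
  toFun := ![0, 4, 3, 2, 1]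
  invFun := ![0, 4, 3, 2, 1]
  left_inv := by decide
  right_inv := by decide

/-- Its action on the six centres. -/
def bt' : Equiv.Perm (Fin 6) where
  toFun := ![5, 4, 2, 3, 1, 0]
  invFun := ![5, 4, 2, 3, 1, 0]
  left_inv := by decide
  right_inv := by decide

/-- The involution, with the exchange of the two suspension points. -/
def gt' : Equiv.Perm (Fin 13) where
  toFun := ![0, 4, 3, 2, 1, 10, 9, 7, 8, 6, 5, 12, 11]
  invFun := ![0, 4, 3, 2, 1, 10, 9, 7, 8, 6, 5, 12, 11]
  left_inv := by decide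
  right_inv := by decide

theorem Jt : J (at', (bt', Equiv.swap 0 1)) = gt' := by
  apply Equiv.ext
  decide

theorem inv_gt : Inv gt' := inv_of_maps gt' (by decide +kernel) (by decide +kernel)

theorem exists_t : ∃ t : GG, act t = gt' ∧ t * t = 1 ∧ t ≠ 1 := by
  have hx : Inv (J (at', (bt', Equiv.swap 0 1))) := by rw [Jt]; exact inv_gt
  refine ⟨⟨⟨_, hx⟩, ?_⟩, Jt, ?_, ?_⟩
  · show Equiv.Perm.sign at' = 1
    decide +kernel
  · apply Subtype.ext
    apply Subtype.ext
    show (at', (bt', Equiv.swap 0 1)) * (at', (bt', Equiv.swap 0 1)) = (1 : P3)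
    apply Prod.ext
    · apply Equiv.ext; decide
    · apply Prod.ext
      · apply Equiv.ext; decide
      · apply Equiv.ext; decide
  · intro h
    have h2 := congrArg (fun z : GG => z.1.1.1 1) h
    exact absurd h2 (by show at' 1 ≠ (1 : Equiv.Perm (Fin 5)) 1; decide)

theorem exists_3 : ∃ t : GG, act t = g3 := by
  have hx : Inv (J (a3, (b3, 1))) := by rw [J3]; exact KK_sym g3 (Or.inl rfl)
  exact ⟨⟨⟨_, hx⟩, by show Equiv.Perm.sign a3 = 1; decide +kernel⟩, J3⟩

theorem exists_5 : ∃ t : GG, act t = g5 := by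
  have hx : Inv (J (a5, (b5, 1))) := by rw [J5]; exact KK_sym g5 (Or.inr (Or.inl rfl))
  exact ⟨⟨⟨_, hx⟩, by show Equiv.Perm.sign a5 = 1; decide +kernel⟩, J5⟩

theorem exists_s : ∃ t : GG, act t = gsw := by
  have hx : Inv (J (1, (1, Equiv.swap 0 1))) := by rw [Jsw]; exact KK_sym gsw (Or.inr (Or.inr rfl))
  exact ⟨⟨⟨_, hx⟩, by show Equiv.Perm.sign (1 : Equiv.Perm (Fin 5)) = 1; exact map_one _⟩, Jsw⟩

/-- The block of a point. -/
def blk13 (i : Fin 13) : Fin 3 := if i.val < 5 then 0 else if i.val < 11 then 1 else 2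

theorem act_blk (g : GG) (i : Fin 13) : blk13 (act g i) = blk13 i := by
  obtain ⟨y, rfl⟩ := e13.surjective i
  have h : act g (e13 y) = e13 (Equiv.sumCongr g.1.1.1 (Equiv.sumCongr g.1.1.2.1 g.1.1.2.2) y) :=
    J_apply g.1.1 y
  rw [h]
  have key : (∀ p : Fin 5, blk13 (e13 (Sum.inl p)) = 0) ∧
    (∀ c : Fin 6, blk13 (e13 (Sum.inr (Sum.inl c))) = 1) ∧
    ∀ c : Fin 2, blk13 (e13 (Sum.inr (Sum.inr c))) = 2 := by decide
  rcases y with p | c | c
  · rw [key.1]; exact key.1 _
  · rw [key.2.1]; exact key.2.1 _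
  · rw [key.2.2]; exact key.2.2 _

/-- The base point of a block. -/
def bp (i : Fin 13) : Fin 13 := if i.val < 5 then 0 else if i.val < 11 then 5 else 11

theorem trans13 (i : Fin 13) : ∃ g : GG, act g (bp i) = i := by
  obtain ⟨x3, h3⟩ := exists_3
  obtain ⟨x5, h5⟩ := exists_5
  obtain ⟨xs, hs⟩ := exists_s
  -- the points which are reached
  have step : ∀ (y : GG) (i j : Fin 13), bp i = bp j → act y i = j →
      (∃ g : GG, act g (bp i) = i) → ∃ g : GG, act g (bp j) = j := by
    rintro y i j hb hy ⟨g, hg⟩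
    refine ⟨y * g, ?_⟩
    rw [← hb, map_mul, Equiv.Perm.mul_apply, hg, hy]
  have e3 : ∀ i j : Fin 13, g3 i = j → act x3 i = j := fun i j h => by rw [h3]; exact h
  have e5 : ∀ i j : Fin 13, g5 i = j → act x5 i = j := fun i j h => by rw [h5]; exact h
  have es : ∀ i j : Fin 13, gsw i = j → act xs i = j := fun i j h => by rw [hs]; exact h
  have c0 : ∃ g : GG, act g (bp 0) = 0 := ⟨1, by rw [map_one]; rfl⟩
  have c1 := step x5 0 1 rfl (e5 _ _ rfl) c0
  have c2 := step x5 1 2 rfl (e5 _ _ rfl) c1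
  have c3 := step x5 2 3 rfl (e5 _ _ rfl) c2
  have c4 := step x5 3 4 rfl (e5 _ _ rfl) c3
  have d5 : ∃ g : GG, act g (bp 5) = 5 := ⟨1, by rw [map_one]; rfl⟩
  have d10 := step x5 5 10 rfl (e5 _ _ rfl) d5
  have d6 := step x5 10 6 rfl (e5 _ _ rfl) d10
  have d8 := step x5 6 8 rfl (e5 _ _ rfl) d6
  have d9 := step x5 8 9 rfl (e5 _ _ rfl) d8
  have d7 := step x3 5 7 rfl (e3 _ _ rfl) d5
  have s11 : ∃ g : GG, act g (bp 11) = 11 := ⟨1, by rw [map_one]; rfl⟩
  have s12 := step xs 11 12 rfl (es _ _ (by decide)) s11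
  fin_cases i
  · exact c0
  · exact c1
  · exact c2
  · exact c3
  · exact c4
  · exact d5
  · exact d6
  · exact d7
  · exact d8
  · exact d9
  · exact d10
  · exact s11
  · exact s12

end Pool.Agent.H393.EV
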