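import Pool.Graph.R_seed8.Y825.EV.Many

/-! From one nonevasive function to all multiples of all powers (copied from the proof of
`Pool.Agent.Y825.EV.exists_m` of the library, which starts from one particular function). -/

set_option autoImplicit false

namespace Pool.Agent.H393.EV

open Pool.Agent.H128R2.Evas Pool.Agent.Y825.EV

theorem shallow_all {m : ℕ} (h : ∃ (W : Type) (_ : Fintype W) (f : (W → Bool) → Bool)
    (T : DT W), Fintype.card W = m ∧ Monotone f ∧
    (∃ x y, f x ≠ f y) ∧
    (∀ i j : W, ∃ σ : Equiv.Perm W, σ i = j ∧ ∀ x : W → Bool, f (x ∘ σ) = f x) ∧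
    (∀ x, T.eval x = f x) ∧ T.depth + 1 ≤ Fintype.card W) (r j : ℕ) (hr : 1 ≤ r) :
    Shallow (r * m ^ j) (r * (m - 1) ^ j) := by
  obtain ⟨W, hW, f, T, rfl, hm, hnc, htr, hT, hd⟩ := h
  have hf0 : f (fun _ => false) = false := by
    by_contra h
    have h' : f (fun _ => false) = true := by simpa using h
    have hall : ∀ x, f x = true := fun x => by
      have h2 := hm (show (fun _ => false) ≤ x from fun _ => Bool.false_le _)
      rw [h'] at h2
      exact top_le_iff.mp h2
    obtain ⟨x, y, hxy⟩ := hnc
    exact hxy ((hall x).trans (hall y).symm)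
  have hf1 : f (fun _ => true) = true := by
    by_contra h
    have h' : f (fun _ => true) = false := by simpa using h
    have hall : ∀ x, f x = false := fun x => by
      have h2 := hm (show x ≤ (fun _ => true) from fun _ => Bool.le_true _)
      rw [h'] at h2
      exact le_bot_iff.mp h2
    obtain ⟨x, y, hxy⟩ := hnc
    exact hxy ((hall x).trans (hall y).symm)
  obtain ⟨t, ht, htd⟩ := pow_tree f T hT j
  have := shallow_or (W := PV W j) r hr (k := (Fintype.card W - 1) ^ j) (pow f j) (pow_mono f hm j)
    (pow_const f false hf0 j) (pow_const f true hf1 j) (pow_trans f htr j) t ht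
    (htd.trans (Nat.pow_le_pow_left (by omega) _))
  rwa [card_PV] at this

end Pool.Agent.H393.EV
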