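import Pool.Agent.H393.EV.Data
import Pool.Agent.H393.EV.Grp

/-! Tables for the certificate, checked by the kernel.  (helper393) -/

set_option autoImplicit false

namespace Pool.Agent.H393.EV

open Pool.Agent.H571R3

/-- The orbit of a new vertex. -/
def jf (i : ℕ) : Fin 3 := ([0, 1, 2, 2] : List (Fin 3)).getD (i - 13) 0

/-- Is the new vertex moved by the involution? -/
def hb (i : ℕ) : Bool := ([false, false, false, true] : List Bool).getD (i - 13) false

/-- The orbits of vertices which are fixed by the involution. -/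
def stb : Fin 3 → Bool := ![true, true, false]

/-- The action of the involution. -/
def tau (i : ℕ) : ℕ := ([0, 4, 3, 2, 1, 10, 9, 7, 8, 6, 5, 12, 11, 13, 14, 16, 15] : List ℕ).getD i 0

/-- The first vertex of an orbit. -/
def uu (j : ℕ) : ℕ := ([13, 14, 15] : List ℕ).getD j 0

/-- The certificates of the links. -/
def tLink (j : ℕ) : Tr := ([tL1, tL2, tL3] : List Tr).getD j (.cone 0)

theorem F1 : ∀ m ∈ MM, m < 2 ^ 17 := by decide +kernel

theorem F2 : ∀ m ∈ MM, ∃ f ∈ facets, (m &&& 8191) &&& f = m &&& 8191 := by decide +kernel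

theorem F3 : ∀ f ∈ facets, ∃ m ∈ MM, f &&& m = f := by decide +kernel

theorem F4 : ∀ m ∈ MM, ∃ m' ∈ MM, ∀ i < 17, m.testBit i = true → m'.testBit (tau i) = true := by
  decide +kernel

theorem F5' : ∀ m ∈ MM, ∀ i i' : Fin 4, jf (13 + i.val) = jf (13 + i'.val) →
    m.testBit (13 + i.val) = true → m.testBit (13 + i'.val) = true → i = i' := by
  decide +kernel

theorem F5 : ∀ m ∈ MM, ∀ i i', i < 17 → i' < 17 → 13 ≤ i → 13 ≤ i' → jf i = jf i' →
    m.testBit i = true → m.testBit i' = true → i = i' := by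
  intro m hm i i' h1 h1' h2 h2' h3 h4 h5
  have e1 : 13 + (i - 13) = i := by omega
  have e2 : 13 + (i' - 13) = i' := by omega
  have h := F5' m hm ⟨i - 13, by omega⟩ ⟨i' - 13, by omega⟩
  simp only [e1, e2] at h
  have := congrArg Fin.val (h h3 h4 h5)
  simp only at this
  omega

theorem F6 : ∀ m ∈ MM, m &&& 31 ≠ 31 ∧ m &&& 2016 ≠ 2016 ∧ m &&& 6144 ≠ 6144 := by
  decide +kernel

theorem F7' : ∀ i i' : Fin 4, jf (13 + i.val) = jf (13 + i'.val) →
    (hb (13 + i.val) = hb (13 + i'.val) ∨ stb (jf (13 + i.val)) = true) → i = i' := by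
  decide +kernel

theorem F7 : ∀ i i', i < 17 → i' < 17 → 13 ≤ i → 13 ≤ i' → jf i = jf i' →
    (hb i = hb i' ∨ stb (jf i) = true) → i = i' := by
  intro i i' h1 h1' h2 h2' h3 h4
  have e1 : 13 + (i - 13) = i := by omega
  have e2 : 13 + (i' - 13) = i' := by omega
  have h := F7' ⟨i - 13, by omega⟩ ⟨i' - 13, by omega⟩
  simp only [e1, e2] at h
  have := congrArg Fin.val (h h3 h4)
  simp only at this
  omega

theorem F8 : ∀ i < 17, 13 ≤ i → jf (tau i) = jf i ∧ 13 ≤ tau i ∧ tau i < 17 ∧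
    (stb (jf i) = true → tau i = i) ∧ (stb (jf i) = false → hb (tau i) = !hb i) := by
  decide +kernel

theorem F8' : ∀ i : Fin 13, tau i.val = (gt' i).val := by decide +kernel

theorem F9 : ∀ j < 3, 13 ≤ uu j ∧ uu j < 17 ∧ (jf (uu j)).val = j ∧ hb (uu j) = false ∧
    ∀ i < 17, (i < 13 ∨ (jf i).val < j) ↔ i < uu j := by
  decide +kernel

theorem FB : ∀ j < 3, check (tLink j) (MM.filter fun m => m.testBit (uu j))
    (2 ^ (uu j) - 1) = true := by
  decide +kernel

end Pool.Agent.H393.EV
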