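import Pool.Agent.H684.EV.Datum
import Pool.Agent.H73.EV.Sym

/-! (helper393, after helper684; words without clone bits of helper73) The function on words has a transitive group of symmetries which acts faithfully on few
points. -/

set_option autoImplicit false

namespace Pool.Agent.H393.WD

open Pool.Agent.H73.EV Pool.Agent.H684.EV
open Pool.Agent.H571R3 (Win win_tree)
open Pool.Agent.H128R2.Evas (DT)

section words

variable {V : Type} {k : ℕ} (typ : V → ZMod k) {D : Type} [Group D] (a : D →* Equiv.Perm V)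

/-- The group. -/
abbrev Gam (D : Type) (k : ℕ) : Type :=
  RegularWreathProduct D (Multiplicative (ZMod k))

/-- The letter of the moved word at the coordinate `c`. -/
noncomputable def mv (γ : Gam D k) (w : ZMod k → V) (c : ZMod k) : V :=
  a (γ.left (Multiplicative.ofAdd c)) (w (Multiplicative.toAdd (γ.right⁻¹ * Multiplicative.ofAdd c)))

theorem mv_one (w : ZMod k → V) : mv a (1 : Gam D k) w = w := by
  funext c
  have e : Multiplicative.toAdd ((1 : Gam D k).right⁻¹ * Multiplicative.ofAdd c) = c := by
    rw [RegularWreathProduct.one_right, inv_one, one_mul, toAdd_ofAdd]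
  unfold mv
  rw [e, RegularWreathProduct.one_left]
  show a 1 (w c) = w c
  rw [map_one]
  rfl

theorem mv_mul (γ δ : Gam D k) (w : ZMod k → V) : mv a (γ * δ) w = mv a γ (mv a δ w) := by
  funext c
  have e : Multiplicative.toAdd ((γ * δ).right⁻¹ * Multiplicative.ofAdd c) =
      Multiplicative.toAdd (δ.right⁻¹ * Multiplicative.ofAdd
        (Multiplicative.toAdd (γ.right⁻¹ * Multiplicative.ofAdd c))) := by
    rw [ofAdd_toAdd, RegularWreathProduct.mul_right, mul_inv_rev, mul_assoc]
  unfold mv
  rw [e, RegularWreathProduct.mul_left]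
  show a (γ.left (Multiplicative.ofAdd c) * δ.left (γ.right⁻¹ * Multiplicative.ofAdd c)) _ =
    a _ (a _ _)
  rw [map_mul]
  rfl

/-- The action on words. -/
noncomputable def wact (hat : ∀ g x, typ (a g x) = typ x) : MulAction (Gam D k) (Wd typ) where
  smul γ w := ⟨mv a γ w.1, fun c => by
    have h : ∀ c, typ (mv a γ w.1 c) =
        Multiplicative.toAdd (γ.right⁻¹ * Multiplicative.ofAdd c) + typ (w.1 0) := by
      intro c
      show typ (a _ _) = _
      rw [hat, w.2]
    rw [h, h, toAdd_mul, toAdd_mul, toAdd_ofAdd, toAdd_ofAdd]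
    ring⟩
  one_smul w := Subtype.ext (mv_one a w.1)
  mul_smul γ δ w := Subtype.ext (mv_mul a γ δ w.1)

/-- The homomorphism to the permutations of the words. -/
noncomputable def wth (hat : ∀ g x, typ (a g x) = typ x) : Gam D k →* Equiv.Perm (Wd typ) :=
  @MulAction.toPermHom (Gam D k) (Wd typ) _ (wact typ a hat)

theorem wth_val (hat : ∀ g x, typ (a g x) = typ x) (γ : Gam D k) (w : Wd typ) :
    (wth typ a hat γ w).1 = mv a γ w.1 := rfl

theorem ms_wth (hat : ∀ g x, typ (a g x) = typ x) (γ : Gam D k) (X : Set (Wd typ))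
    (c : ZMod k) : ms typ (wth typ a hat γ '' X) c =
      a (γ.left (Multiplicative.ofAdd c)) ''
        ms typ X (Multiplicative.toAdd (γ.right⁻¹ * Multiplicative.ofAdd c)) := by
  ext v
  constructor
  · intro hb
    refine ⟨(a (γ.left (Multiplicative.ofAdd c))).symm v, ?_, Equiv.apply_symm_apply _ _⟩
    intro w hw he
    refine hb _ ⟨w, hw, rfl⟩ ?_
    rw [wth_val]
    unfold mv
    rw [he, Equiv.apply_symm_apply]
  · rintro ⟨u, hb, rfl⟩
    rintro _ ⟨w, hw, rfl⟩ he
    refine hb w hw ?_
    rw [wth_val] at he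
    exact (a (γ.left (Multiplicative.ofAdd c))).injective he

theorem ff_wth (hat : ∀ g x, typ (a g x) = typ x) (S : Set V → Prop)
    (haS : ∀ g A, S (a g '' A) ↔ S A) (γ : Gam D k) (X : Set (Wd typ)) :
    FF typ S (wth typ a hat γ '' X) ↔ FF typ S X := by
  constructor
  · rintro ⟨c, hc⟩
    rw [ms_wth, haS] at hc
    exact ⟨_, hc⟩
  · rintro ⟨c, hc⟩
    refine ⟨Multiplicative.toAdd (γ.right * Multiplicative.ofAdd c), ?_⟩
    rw [ms_wth, haS, ofAdd_toAdd, inv_mul_cancel_left, toAdd_ofAdd]
    exact hc

theorem wth_trans (hat : ∀ g x, typ (a g x) = typ x) (htr : ∀ u v, typ u = typ v → ∃ g, a g u = v)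
    (w w' : Wd typ) : ∃ γ : Gam D k, wth typ a hat γ w = w' := by
  let t : Multiplicative (ZMod k) := Multiplicative.ofAdd (typ (w.1 0) - typ (w'.1 0))
  have hty : ∀ c : ZMod k, typ (w.1 (Multiplicative.toAdd (t⁻¹ * Multiplicative.ofAdd c))) =
      typ (w'.1 c) := by
    intro c
    rw [w.2, w'.2 c, toAdd_mul, toAdd_inv, toAdd_ofAdd, toAdd_ofAdd]
    ring
  choose g hg using fun c => htr _ _ (hty c)
  refine ⟨⟨fun c => g (Multiplicative.toAdd c), t⟩, ?_⟩
  apply Subtype.ext
  funext c
  exact hg c

/-- The datum: a transitive function on words, whose group acts faithfully on `|Λ| k` points. -/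
theorem wd_datum [Finite V] [NeZero k] (S : Set V → Prop)
    (hsurj : Function.Surjective typ) (hdown : ∀ A B : Set V, A ⊆ B → S B → S A)
    (hempty : S ∅) [Finite D]
    (hat : ∀ g x, typ (a g x) = typ x) (haS : ∀ g A, S (a g '' A) ↔ S A)
    (htr : ∀ u v, typ u = typ v → ∃ g, a g u = v) {Λ : Type} [Fintype Λ] [Nonempty Λ]
    (ρ : D →* Equiv.Perm Λ) (hρ : Function.Injective ρ) (va vb ve : V)
    (hab : typ vb = typ va) (hea : typ ve = typ va) (hea' : ve ≠ va) (heb : ve ≠ vb)
    (hS : ¬ S {va, vb}) (hw1 : W1 typ S ∅ {va}) (hw2 : W1 typ S {va} {vb}) :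
    Datum (Fintype.card Λ * k) (Nat.card (Wd typ) - 1) (Nat.card (Wd typ)) := by
  classical
  have hred := reduce typ S hsurj hdown va vb ve hab hea hea' heb hS hw1 hw2
  have hnu : ¬ S Set.univ := fun h => hS (hdown _ _ (Set.subset_univ _) h)
  have : Finite (Wd typ) := by unfold Wd; infer_instance
  have : Fintype (Wd typ) := Fintype.ofFinite _
  obtain ⟨t, ht, hdep⟩ := win_tree (FF typ S) hred
  -- the faithful action on points
  let act2 : MulAction D Λ := MulAction.compHom _ ρ
  have hfaith : FaithfulSMul D Λ := ⟨fun h => hρ (Equiv.ext h)⟩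
  have hBF : ∀ x : Wd typ → Bool, decide (FF typ S {w | x w = true}) = true ↔
      FF typ S {w | x w = true} := fun x => decide_eq_true_iff
  refine ⟨Gam D k, inferInstance, inferInstance, Λ × Multiplicative (ZMod k),
    inferInstance, RegularWreathProduct.toPerm D (Multiplicative (ZMod k)) Λ,
    Wd typ, inferInstance, wth typ a hat, fun x => decide (FF typ S {w | x w = true}), t,
    RegularWreathProduct.toPermInj _ _ _, ?_, ?_, wth_trans typ a hat htr, ?_, ?_, ?_, ?_, ?_, ?_⟩
  · rw [Fintype.card_prod]
    rw [show Fintype.card (Multiplicative (ZMod k)) = Fintype.card (ZMod k) from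
      Fintype.card_congr Multiplicative.toAdd, ZMod.card]
  · by_contra hne
    rw [not_nonempty_iff] at hne
    have h1 := Fintype.card_eq_zero (α := Wd typ)
    omega
  · intro x y hxy
    rw [Bool.le_iff_imp, hBF, hBF]
    refine FF_mono typ _ hdown ?_
    intro w hw
    have h3 := hxy w
    have hw' : x w = true := hw
    rw [hw'] at h3
    exact top_le_iff.mp h3
  · rw [← Bool.not_eq_true, hBF]
    have : {w : Wd typ | (fun _ : Wd typ => false) w = true} = ∅ := by
      ext w; simp
    rw [this]
    exact FF_empty typ _ hnu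
  · rw [hBF]
    have : {w : Wd typ | (fun _ : Wd typ => true) w = true} = Set.univ := by
      ext w; simp
    rw [this]
    exact FF_univ typ _ hsurj hempty
  · intro γ x
    rw [Bool.eq_iff_iff, hBF, hBF]
    have himg : wth typ a hat γ '' {u | (x ∘ wth typ a hat γ) u = true} = {u | x u = true} := by
      ext u
      constructor
      · rintro ⟨v, hv, rfl⟩
        exact hv
      · intro hu
        refine ⟨(wth typ a hat γ).symm u, ?_, Equiv.apply_symm_apply _ u⟩
        show x (wth typ a hat γ ((wth typ a hat γ).symm u)) = true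
        rw [Equiv.apply_symm_apply]
        exact hu
    rw [← himg]
    exact (ff_wth typ a hat S haS γ _).symm
  · intro x
    rw [Bool.eq_iff_iff, hBF]
    exact ht x
  · rw [Nat.card_eq_fintype_card]
    exact Nat.mul_le_mul_right _ (by omega)

end words

end Pool.Agent.H393.WD
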