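import Pool.Agent.H393.EV.Asm
import Pool.Agent.H393.EV.Data1
import Pool.Agent.H393.EV.W1Main
import Pool.Agent.H393.EV.WordDatum2

/-! Assembly with the leaf condition.  (helper393) -/

set_option autoImplicit false

namespace Pool.Agent.H393.EV

open Pool.Agent.H73.EV (W1 Wd card_Wd)
open Pool.Agent.H684.EV (Datum)
open Pool.Agent.H571R3 Pool.Agent.R282.EV

theorem not_ch (j : Fin 3) (g : GG) (hg : g ∉ Subgroup.zpowers tt) :
    (Sum.inr ⟨j, (g : GG ⧸ St j)⟩ : VV) ∉ Ch psi 17 := by
  rintro ⟨i, hi, he⟩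
  by_cases h1 : i < 13
  · rw [psi_lt i h1] at he
    cases he
  · rw [psi_ge i h1] at he
    obtain ⟨h2, h3⟩ := sig_inj he
    have h4 := St_le _ h3
    apply hg
    have h5 := mul_mem (hh_mem i) h4
    rwa [mul_inv_cancel_left] at h5

/-- An element of order five. -/
noncomputable def xx5 : GG := exists_5.choose

theorem xx5_act : act xx5 = g5 := exists_5.choose_spec

theorem xx5_nt : xx5 ∉ Subgroup.zpowers tt := by
  intro h
  have hx := xx5_act
  rcases mem_zp xx5 h with h | h
  · rw [h, map_one] at hx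
    have := congrArg (fun e : Equiv.Perm (Fin 13) => e 0) hx
    exact absurd this (by decide)
  · rw [h, tt_act] at hx
    have := congrArg (fun e : Equiv.Perm (Fin 13) => e 0) hx
    exact absurd this (by decide)

theorem xx55_nt : xx5 * xx5 ∉ Subgroup.zpowers tt := by
  intro h
  have hx : act (xx5 * xx5) = g5 * g5 := by rw [map_mul, xx5_act]
  rcases mem_zp _ h with h | h
  · rw [h, map_one] at hx
    have := congrArg (fun e : Equiv.Perm (Fin 13) => e 0) hx
    exact absurd this (by decide)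
  · rw [h, tt_act] at hx
    have := congrArg (fun e : Equiv.Perm (Fin 13) => e 0) hx
    exact absurd this (by decide)

/-- The first letter. -/
noncomputable def va : VV := Sum.inr ⟨2, ((xx5 : GG) : GG ⧸ St 2)⟩

/-- The second letter. -/
noncomputable def vb : VV := Sum.inr ⟨2, ((xx5 * xx5 : GG) : GG ⧸ St 2)⟩

/-- The third letter. -/
noncomputable def ve : VV := psi 15

theorem va_ch : va ∉ Ch psi 17 := not_ch 2 xx5 xx5_nt

theorem vb_ch : vb ∉ Ch psi 17 := not_ch 2 (xx5 * xx5) xx55_nt

theorem ve_ch : ve ∈ Ch psi 17 := ⟨15, by norm_num, rfl⟩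

theorem va_ne_vb : va ≠ vb := by
  intro h
  obtain ⟨-, h2⟩ := sig_inj h
  rw [inv_mul_cancel_left] at h2
  exact xx5_nt (St_le _ h2)

theorem pair_not : ¬ Sorb aV psi MM {va, vb} := by
  rintro ⟨g, m, hm, h⟩
  obtain ⟨k, hk, he⟩ := h va (Or.inl rfl)
  obtain ⟨k', hk', he'⟩ := h vb (Or.inr rfl)
  have h1 : lev (psi k) = 3 := by
    rw [← lev_aV g, ← he]; rfl
  have h2 : lev (psi k') = 3 := by
    rw [← lev_aV g, ← he']; rfl
  have h13 : ¬ k < 13 := fun h => by rw [lev_lt k h] at h1; omega
  have h13' : ¬ k' < 13 := fun h => by rw [lev_lt k' h] at h2; omega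
  rw [lev_ge k h13] at h1
  rw [lev_ge k' h13'] at h2
  have h3 : k = k' := F5 m hm k k' (bit_lt m hm k hk) (bit_lt m hm k' hk') (by omega) (by omega)
    (Fin.ext (by omega)) hk hk'
  exact va_ne_vb ((he.trans (by rw [h3])).trans he'.symm)

theorem tyc13 : ∀ i : Fin 13, (blk13 i).val = tyc i.val := by decide

theorem tyc17 : ∀ i < 17, 13 ≤ i → (jf i).val + 3 = tyc i := by decide

theorem typ_psi (i : ℕ) (hi : i < 17) : typ (psi i) = ((tyc i : ℕ) : ZMod 6) := by
  by_cases h1 : i < 13
  · rw [psi_lt i h1]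
    show (((blk13 ⟨i, h1⟩).val : ℕ) : ZMod 6) = _
    rw [tyc13]
  · rw [psi_ge i h1]
    show (((jf i).val + 3 : ℕ) : ZMod 6) = _
    rw [tyc17 i hi (by omega)]

theorem lev_typ (v v' : VV) (h : lev v = lev v') (h0 : lev v ≠ 0) : typ v = typ v' := by
  rcases v with x | ⟨j, x⟩
  · exact absurd rfl h0
  · rcases v' with y | ⟨j', y⟩
    · exact absurd h (Nat.succ_ne_zero _)
    · have h1 : j.val + 1 = j'.val + 1 := h
      show ((j.val + 3 : ℕ) : ZMod 6) = ((j'.val + 3 : ℕ) : ZMod 6)
      rw [show j.val = j'.val by omega]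

theorem aLink_bit : ∀ j < 3, ∀ k < 6, (aLink j).testBit k = true →
    ∃ l < j, tyc (uu l) = k := by decide

theorem aLink_lt : ∀ j < 3, aLink j < 2 ^ 6 := by decide

theorem aFin_bit : ∀ k < 6, (56 : ℕ).testBit k = true → ∃ l < 3, tyc (uu l) = k := by decide

theorem w1s : W1 typ (Sorb aV psi MM) ∅ {va} ∧ W1 typ (Sorb aV psi MM) {va} {vb} := by
  refine orbit_w1 aV psi MM 17 lev typ 3 (by norm_num) lev_aV bit_lt psi_inj ?_ ?_ ?_ ?_ ?_
    typ_aV lev_typ tyc (fun k => (k : ZMod 6)) typ_psi (fun j => uu (j - 1))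
    (fun j => 2 ^ (uu (j - 1)) - 1) (fun j => sLink (j - 1)) sFin ?_ ?_ ?_
    (fun j => aLink (j - 1)) ?_ ?_ 56 ?_ check1_fin va vb rfl rfl va_ch vb_ch
  · rintro (x | ⟨j, x⟩)
    · exact Nat.zero_le _
    · have := j.isLt
      show j.val + 1 ≤ 3
      omega
  · rintro (x | ⟨j, x⟩) h
    · exact ⟨x.val, by omega, psi_lt x.val x.isLt⟩
    · exact absurd h (Nat.succ_ne_zero _)
  · -- invariance of the base
    intro g m hm
    obtain ⟨f, hf, h1⟩ := F2 m hm
    let s : Finset (Fin 13) := Finset.univ.filter fun i => m.testBit i.val = true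
    have hs : s ∈ KK := by
      refine ⟨f, hf, fun i hi => ?_⟩
      refine sb_bits m f 8191 h1 i.val (Finset.mem_filter.1 hi).2 ?_
      have : ∀ i : Fin 13, (8191 : ℕ).testBit i.val = true := by decide
      exact this i
    obtain ⟨f', hf', h2⟩ := (act_inv g s).2 hs
    obtain ⟨m', hm', h3⟩ := F3 f' hf'
    refine ⟨m', hm', fun i hi hl => ?_⟩
    have hi13 : i < 13 := by
      by_contra h
      rw [lev_ge i h] at hl
      omega
    refine ⟨(act g ⟨i, hi13⟩).val, ?_, ?_⟩
    · have h4 := h2 (act g ⟨i, hi13⟩) (Finset.mem_map.2 ⟨⟨i, hi13⟩,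
        Finset.mem_filter.2 ⟨Finset.mem_univ _, hi⟩, rfl⟩)
      have h5 : (f' &&& m').testBit (act g ⟨i, hi13⟩).val = true := by rw [h3]; exact h4
      rw [Nat.testBit_land] at h5
      exact (Bool.and_eq_true_iff.1 h5).2
    · rw [psi_lt i hi13, psi_lt _ (act g ⟨i, hi13⟩).isLt, aV_inl]
  · -- the translations inside the chart
    intro g i i' hi hi' hl he
    have hgood : Good aV psi MM g := by
      have h1 : ¬ i < 13 := fun h => hl (lev_lt i h)
      have h2 : ¬ i' < 13 := by
        intro h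
        have h3 := congrArg lev he
        rw [lev_aV, lev_lt i' h] at h3
        exact hl h3
      rw [psi_ge i h1, psi_ge i' h2, aV_mk] at he
      obtain ⟨-, h3⟩ := sig_inj he.symm
      have h4 := St_le _ h3
      have h5 : g ∈ Subgroup.zpowers tt := by
        have h6 := mul_mem (mul_mem (hh_mem i') h4) (inv_mem (hh_mem i))
        have h7 : hh i' * ((hh i')⁻¹ * (g * hh i)) * (hh i)⁻¹ = g := by group
        rwa [h7] at h6
      rcases mem_zp g h5 with rfl | rfl
      · exact good_one
      · exact good_tt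
    intro m hm _
    obtain ⟨m', hm', h⟩ := hgood m hm
    exact ⟨m', hm', fun l hl' _ => h l hl'⟩
  · -- one vertex of every level
    intro m hm i i' hi hi' hl hl0
    have h1 : ¬ i < 13 := fun h => hl0 (lev_lt i h)
    have h2 : ¬ i' < 13 := fun h => hl0 (hl.trans (lev_lt i' h))
    rw [lev_ge i h1, lev_ge i' h2] at hl
    exact F5 m hm i i' (bit_lt m hm i hi) (bit_lt m hm i' hi') (by omega) (by omega)
      (Fin.ext (by omega)) hi hi'
  · intro j hj1 hjE
    obtain ⟨h1, h2, h3, h4, h5⟩ := F9 (j - 1) (by omega)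
    have h6 : ¬ uu (j - 1) < 13 := by omega
    refine ⟨h2, ?_, ?_⟩
    · show lev (psi (uu (j - 1))) = j
      rw [lev_ge _ h6, h3]; omega
    · rintro (x | ⟨j', x⟩) hv
      · have : (0 : ℕ) = j := hv
        omega
      · obtain ⟨h, rfl⟩ := QuotientGroup.mk_surjective x
        have hv' : j'.val + 1 = j := hv
        refine ⟨h, ?_⟩
        show aV h (psi (uu (j - 1))) = _
        rw [psi_ge _ h6, aV_mk]
        refine sig_eq (Fin.ext (by omega)) ?_
        have h7 : hh (uu (j - 1)) = 1 := by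
          unfold hh
          rw [h4]
          rfl
        rw [h7, mul_one, inv_mul_cancel]
        exact one_mem _
  · intro j hj1 hjE
    refine ⟨Sum.inr ⟨⟨j - 1, by omega⟩, ((xx5 : GG) : GG ⧸ St _)⟩, ?_, not_ch _ _ xx5_nt⟩
    show j - 1 + 1 = j
    omega
  · intro j hj1 hjE i
    obtain ⟨h1, h2, h3, h4, h5⟩ := F9 (j - 1) (by omega)
    show (2 ^ (uu (j - 1)) - 1).testBit i = true ↔ _
    rw [Nat.testBit_two_pow_sub_one, decide_eq_true_eq]
    constructor
    · intro hi
      have hiN : i < 17 := hi.trans h2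
      refine ⟨hiN, ?_⟩
      rcases (h5 i hiN).2 hi with h | h
      · rw [lev_lt i h]; omega
      · by_cases h13 : i < 13
        · rw [lev_lt i h13]; omega
        · rw [lev_ge i h13]; omega
    · rintro ⟨hiN, hl⟩
      apply (h5 i hiN).1
      by_cases h13 : i < 13
      · exact Or.inl h13
      · right
        rw [lev_ge i h13] at hl
        omega
  · intro j hj1 hjE k hk
    have hk6 : k < 6 := by
      by_contra h
      have h2 := (aLink_lt (j - 1) (by omega)).trans_le
        (Nat.pow_le_pow_right (by norm_num : 0 < 2) (show 6 ≤ k by omega))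
      rw [Nat.testBit_lt_two_pow h2] at hk
      exact Bool.noConfusion hk
    obtain ⟨l, hl, he⟩ := aLink_bit (j - 1) (by omega) k hk6 hk
    exact ⟨l + 1, by omega, by omega, he⟩
  · intro j hj1 hjE
    exact FB1 (j - 1) (by omega)
  · intro k hk
    have hk6 : k < 6 := by
      by_contra h
      have h2 := (show (56 : ℕ) < 2 ^ 6 by norm_num).trans_le
        (Nat.pow_le_pow_right (by norm_num : 0 < 2) (show 6 ≤ k by omega))
      rw [Nat.testBit_lt_two_pow h2] at hk
      exact Bool.noConfusion hk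
    obtain ⟨l, hl, he⟩ := aFin_bit k hk6 hk
    exact ⟨l + 1, by omega, by omega, he⟩

theorem prod_bd1 : 6 * ∏ i : ZMod 6, bd i = 155520000 := by decide +kernel

theorem card_wd : Nat.card (Wd typ) = 155520000 := by
  rw [card_Wd, ← prod_bd1]
  congr 1
  exact Finset.prod_congr rfl fun i _ => card_typ i

/-- A monotone function of `155520000` variables with a transitive group which acts
faithfully on `42` points, not evasive. -/
theorem datum1 : Datum 42 (155520000 - 1) 155520000 := by
  have h := Pool.Agent.H393.WD.wd_datum typ aV (Sorb aV psi MM) typ_surj (sorb_down aV psi MM)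
    (sorb_empty aV psi MM MM_ne) typ_aV (sorb_smul aV psi MM) typ_trans r7' r7'_inj va vb ve
    rfl rfl (fun h => va_ch (h ▸ ve_ch)) (fun h => vb_ch (h ▸ ve_ch)) pair_not w1s.1 w1s.2
  rw [card_wd] at h
  exact h

end Pool.Agent.H393.EV
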